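import Pool.Agent.W883.EC.Ang

/-!
# Project MS (helper912), CELLS: sums over cells of the torus and low Fourier coefficients

By helper814; two-dimensional version of `Pool.Agent.W883.EC.ang_main` (helper883), for arbitrary
divisions of the two circles.
-/

set_option autoImplicit false

namespace Pool.Agent.N814.MS

open Finset
open Pool.Agent.H376R2.MR
open Pool.Agent.W883.EC

/-- the grid point `m` -/
noncomputable def gpt (N m : ℕ) : ℝ := -Real.pi + 2 * Real.pi * m / N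

/-- the kernel at the grid point `m` -/
noncomputable def Jk (M N m : ℕ) (x : ℝ) : ℝ :=
  ‖pp M ((-Real.pi - x) + 2 * Real.pi * m / N)‖ ^ 2 / QQ M

/-- the weight of the label `j` -/
noncomputable def Vk (M N : ℕ) (c : ℝ → ℤ) (j : ℤ) (x : ℝ) : ℝ :=
  (1 / (N : ℝ)) * ∑ m ∈ (range N).filter (fun m => c (gpt N m) = j), Jk M N m x

lemma Jk_nonneg {M : ℕ} (hM : 1 ≤ M) (N m : ℕ) (x : ℝ) : 0 ≤ Jk M N m x := by
  have := QQ_pos hM
  unfold Jk
  positivity

lemma Jk_mean {M N : ℕ} (hM : 1 ≤ M) (hN : 2 * M + 1 ≤ N) (x : ℝ) :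
    (1 / (N : ℝ)) * ∑ m ∈ range N, Jk M N m x = 1 := by
  have hQ := QQ_pos hM
  have hN0 : (0 : ℝ) < N := by exact_mod_cast (by omega : 0 < N)
  unfold Jk
  rw [← Finset.sum_div, mean_pp M N hN]
  field_simp

/-- sums over the fibres of a map -/
lemma fib_le (L : Finset ℤ) (N : ℕ) (c : ℕ → ℤ) (h : ℕ → ℝ) (hh : ∀ m, 0 ≤ h m) :
    ∑ j ∈ L, ∑ m ∈ (range N).filter (fun m => c m = j), h m ≤ ∑ m ∈ range N, h m := by
  have h1 : ∀ j ∈ L, ∑ m ∈ (range N).filter (fun m => c m = j), h m =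
      ∑ m ∈ range N, if c m = j then h m else 0 := fun j _ => Finset.sum_filter _ _
  rw [Finset.sum_congr rfl h1, Finset.sum_comm]
  refine Finset.sum_le_sum fun m _ => ?_
  rw [Finset.sum_ite_eq]
  split_ifs
  · exact le_rfl
  · exact hh m

lemma Vk_nonneg {M : ℕ} (hM : 1 ≤ M) (N : ℕ) (c : ℝ → ℤ) (j : ℤ) (x : ℝ) : 0 ≤ Vk M N c j x := by
  unfold Vk
  exact mul_nonneg (by positivity) (Finset.sum_nonneg fun m _ => Jk_nonneg hM N m x)

lemma Vk_sum_le {M N : ℕ} (hM : 1 ≤ M) (hN : 2 * M + 1 ≤ N) (c : ℝ → ℤ) (L : Finset ℤ) (x : ℝ) :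
    ∑ j ∈ L, Vk M N c j x ≤ 1 := by
  unfold Vk
  rw [← Finset.mul_sum]
  calc (1 / (N : ℝ)) * ∑ j ∈ L, ∑ m ∈ (range N).filter (fun m => c (gpt N m) = j), Jk M N m x
      ≤ (1 / (N : ℝ)) * ∑ m ∈ range N, Jk M N m x :=
        mul_le_mul_of_nonneg_left
          (fib_le L N (fun m => c (gpt N m)) (fun m => Jk M N m x) fun m => Jk_nonneg hM N m x)
          (by positivity)
    _ = 1 := Jk_mean hM hN x

lemma Vk_le {M N : ℕ} (hM : 1 ≤ M) (hN : 2 * M + 1 ≤ N) (c : ℝ → ℤ) (j : ℤ) (x : ℝ) :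
    Vk M N c j x ≤ 1 := by
  have := Vk_sum_le hM hN c {j} x
  rwa [Finset.sum_singleton] at this

/-- the points far from the boundaries of the division -/
def Good (c : ℝ → ℤ) (δ x : ℝ) : Prop :=
  ∀ u, -Real.pi ≤ u → u < Real.pi → c u ≠ c x → δ ≤ |u - x| ∧ |u - x| ≤ 2 * Real.pi - δ

lemma Vk_tail {M N : ℕ} (hM : 1 ≤ M) (hN : 2 * M + 1 ≤ N) {c : ℝ → ℤ} {δ x : ℝ} (hδ : 0 < δ)
    (hg : Good c δ x) : 1 - Vk M N c (c x) x ≤ 23 / (M * δ) ^ 2 := by
  have hpi := Real.pi_pos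
  have hQ := QQ_pos hM
  have hM0 : (0 : ℝ) < M := by exact_mod_cast hM
  have hN0 : (0 : ℝ) < N := by exact_mod_cast (by omega : 0 < N)
  have h3 : 1 - Vk M N c (c x) x =
      (1 / (N : ℝ)) * ∑ m ∈ (range N).filter (fun m => ¬ c (gpt N m) = c x), Jk M N m x := by
    have h4 := Jk_mean hM hN x
    rw [← Finset.sum_filter_add_sum_filter_not (range N) (fun m => c (gpt N m) = c x)] at h4
    unfold Vk
    rw [mul_add] at h4
    linarith
  have hfar : ∀ m ∈ (range N).filter (fun m => ¬ c (gpt N m) = c x),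
      Jk M N m x ≤ Real.pi ^ 2 / (4 * δ ^ 2) / QQ M *
        (‖1 - ex ((-Real.pi - x) + 2 * Real.pi * m / N)‖ ^ 2 *
          ‖pp M ((-Real.pi - x) + 2 * Real.pi * m / N)‖ ^ 2) := by
    intro m hm
    rw [mem_filter, mem_range] at hm
    obtain ⟨hmN, hmR⟩ := hm
    have hm0 : (0 : ℝ) ≤ 2 * Real.pi * m / N := by positivity
    have hm1 : 2 * Real.pi * m / N < 2 * Real.pi := by
      rw [div_lt_iff₀ hN0]
      have h5 : (m : ℝ) < N := by exact_mod_cast hmN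
      exact mul_lt_mul_of_pos_left h5 (by positivity)
    obtain ⟨h5, h6⟩ := hg (gpt N m) (by unfold gpt; linarith) (by unfold gpt; linarith) hmR
    have hu : gpt N m - x = (-Real.pi - x) + 2 * Real.pi * m / N := by
      unfold gpt
      ring
    rw [hu] at h5 h6
    obtain ⟨u, hud⟩ : ∃ u, u = (-Real.pi - x) + 2 * Real.pi * m / N := ⟨_, rfl⟩
    unfold Jk
    rw [← hud] at h5 h6 ⊢
    have h7 := norm_one_sub_ex_ge hδ.le h5 h6
    have h8 : 1 ≤ Real.pi ^ 2 / (4 * δ ^ 2) * ‖1 - ex u‖ ^ 2 := by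
      have h9 : Real.pi ^ 2 / (4 * δ ^ 2) * (4 * δ ^ 2 / Real.pi ^ 2) = 1 := by
        field_simp
      rw [← h9]
      exact mul_le_mul_of_nonneg_left h7 (by positivity)
    have h9 : 0 ≤ ‖pp M u‖ ^ 2 / QQ M := by positivity
    calc ‖pp M u‖ ^ 2 / QQ M = 1 * (‖pp M u‖ ^ 2 / QQ M) := (one_mul _).symm
      _ ≤ (Real.pi ^ 2 / (4 * δ ^ 2) * ‖1 - ex u‖ ^ 2) * (‖pp M u‖ ^ 2 / QQ M) :=
        mul_le_mul_of_nonneg_right h8 h9
      _ = _ := by ring
  rw [h3]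
  have h5 : ∑ m ∈ (range N).filter (fun m => ¬ c (gpt N m) = c x), Jk M N m x ≤
      Real.pi ^ 2 / (4 * δ ^ 2) / QQ M * (N * (2 * M + 1)) := by
    refine (Finset.sum_le_sum hfar).trans ?_
    rw [← Finset.mul_sum]
    refine mul_le_mul_of_nonneg_left ?_ (by positivity)
    refine le_trans ?_ (mom_pp M N hN (-Real.pi - x))
    exact Finset.sum_le_sum_of_subset_of_nonneg (Finset.filter_subset _ _)
      (fun _ _ _ => by positivity)
  have h6 : (1 / (N : ℝ)) * (Real.pi ^ 2 / (4 * δ ^ 2) / QQ M * (N * (2 * M + 1))) =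
      Real.pi ^ 2 / (4 * δ ^ 2) * ((2 * M + 1) / QQ M) := by
    field_simp
  refine (mul_le_mul_of_nonneg_left h5 (by positivity)).trans ?_
  rw [h6]
  exact tail_const hM hδ

open scoped Classical in
lemma Vk_bad {M N : ℕ} (hM : 1 ≤ M) (hN : 2 * M + 1 ≤ N) {c : ℝ → ℤ} {δ : ℝ} (hδ : 0 < δ) (x : ℝ) :
    1 - Vk M N c (c x) x ≤ (if ¬ Good c δ x then 1 else 0) + 23 / (M * δ) ^ 2 := by
  by_cases h : Good c δ x
  · rw [if_neg (not_not.2 h), zero_add]
    exact Vk_tail hM hN hδ h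
  · rw [if_pos h]
    have h1 := Vk_nonneg hM N c (c x) x
    have h2 : (0 : ℝ) ≤ 23 / (M * δ) ^ 2 := by positivity
    linarith

/-- two-dimensional Parseval inequality for the kernel -/
lemma parseval2 {ι : Type*} (s : Finset ι) (x y a : ι → ℝ) {M N : ℕ} (hM : 1 ≤ M)
    (hN : 2 * M + 1 ≤ N) (hN' : 4 * M + 1 ≤ N) :
    ∑ m ∈ range N, ∑ m' ∈ range N, (∑ z ∈ s, a z * (Jk M N m (x z) * Jk M N m' (y z))) ^ 2 ≤
      (N : ℝ) ^ 2 * ∑ k ∈ FK (2 * M + 1), ∑ l ∈ FK (2 * M + 1),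
        ‖∑ z ∈ s, (a z : ℂ) * (ex (k * x z) * ex (l * y z))‖ ^ 2 := by
  have hQ := QQ_pos hM
  have hN1 : 1 ≤ N := by omega
  have hN0 : (0 : ℝ) < N := by exact_mod_cast hN1
  obtain ⟨Q, hQd⟩ : ∃ Q, Q = QQ M := ⟨_, rfl⟩
  have hQ0 : (0 : ℝ) < Q := by rw [hQd]; exact hQ
  obtain ⟨T, hT⟩ : ∃ T : ℤ → ℤ → ℂ, T = fun k l : ℤ =>
    ∑ z ∈ s, (a z : ℂ) * (ex (k * x z) * ex (l * y z)) := ⟨_, rfl⟩
  obtain ⟨Bc, hB⟩ : ∃ Bc : ℤ → ℤ → ℂ, Bc = fun k l : ℤ =>
    ((cf M k : ℂ) / (Q : ℂ)) * ((cf M l : ℂ) / (Q : ℂ)) *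
      (ex (k * Real.pi) * ex (l * Real.pi) * T k l) := ⟨_, rfl⟩
  have hJ : ∀ (m : ℕ) (v : ℝ), (Jk M N m v : ℂ) = ∑ k ∈ FK (2 * M + 1),
      ((cf M k : ℂ) / (Q : ℂ)) * (ex (k * Real.pi) * ex (k * v) *
        ex (((-k : ℤ) : ℝ) * (0 + 2 * Real.pi * m / N))) := by
    intro m v
    unfold Jk
    rw [← hQd]
    push_cast
    have h5 := pp_sq M ((-Real.pi - v) + 2 * Real.pi * m / N)
    push_cast at h5
    rw [h5, Finset.sum_div]
    refine Finset.sum_congr rfl fun k _ => ?_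
    have h6 : ex (k * (-((-Real.pi - v) + 2 * Real.pi * m / N))) =
        ex (k * Real.pi) * ex (k * v) * ex (-(k : ℝ) * (0 + 2 * Real.pi * m / N)) := by
      rw [← ex_add, ← ex_add]
      congr 1
      ring
    rw [h6]
    ring
  have hG : ∀ m m' : ℕ, ((∑ z ∈ s, a z * (Jk M N m (x z) * Jk M N m' (y z)) : ℝ) : ℂ) =
      ∑ k ∈ FK (2 * M + 1), (∑ l ∈ FK (2 * M + 1), Bc k l *
        ex (((-l : ℤ) : ℝ) * (0 + 2 * Real.pi * m' / N))) *
          ex (((-k : ℤ) : ℝ) * (0 + 2 * Real.pi * m / N)) := by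
    intro m m'
    push_cast
    have h4 : ∀ z ∈ s, (a z : ℂ) * ((Jk M N m (x z) : ℂ) * (Jk M N m' (y z) : ℂ)) =
        ∑ k ∈ FK (2 * M + 1), ∑ l ∈ FK (2 * M + 1),
          ((cf M k : ℂ) / (Q : ℂ)) * ((cf M l : ℂ) / (Q : ℂ)) *
          (ex (k * Real.pi) * ex (l * Real.pi)) *
          (ex (((-l : ℤ) : ℝ) * (0 + 2 * Real.pi * m' / N)) *
            ex (((-k : ℤ) : ℝ) * (0 + 2 * Real.pi * m / N))) *
          ((a z : ℂ) * (ex (k * x z) * ex (l * y z))) := by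
      intro z _
      rw [hJ, hJ, Finset.sum_mul_sum, Finset.mul_sum]
      refine Finset.sum_congr rfl fun k _ => ?_
      rw [Finset.mul_sum]
      refine Finset.sum_congr rfl fun l _ => ?_
      ring
    rw [Finset.sum_congr rfl h4, Finset.sum_comm]
    refine Finset.sum_congr rfl fun k _ => ?_
    rw [Finset.sum_comm, Finset.sum_mul]
    refine Finset.sum_congr rfl fun l _ => ?_
    rw [← Finset.mul_sum, hB, hT]
    push_cast
    ring
  have hfr : ∀ i ∈ FK (2 * M + 1), ∀ j ∈ FK (2 * M + 1), (N : ℤ) ∣ (-i) - (-j) → i = j := by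
    intro i hi j hj hd
    unfold FK at hi hj
    rw [mem_Ioo] at hi hj
    push_cast at hi hj
    have h8 : |(-i) - (-j)| < (N : ℤ) := by
      rw [abs_lt]
      constructor <;> omega
    have h9 := Int.eq_zero_of_abs_lt_dvd hd h8
    omega
  have h7 : ∀ m m' : ℕ, (∑ z ∈ s, a z * (Jk M N m (x z) * Jk M N m' (y z))) ^ 2 =
      ‖∑ k ∈ FK (2 * M + 1), (∑ l ∈ FK (2 * M + 1), Bc k l *
        ex (((-l : ℤ) : ℝ) * (0 + 2 * Real.pi * m' / N))) *
          ex (((-k : ℤ) : ℝ) * (0 + 2 * Real.pi * m / N))‖ ^ 2 := by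
    intro m m'
    rw [← hG m m', Complex.norm_real, Real.norm_eq_abs, sq_abs]
  rw [Finset.sum_comm]
  have h10 : ∀ m' ∈ range N, ∑ m ∈ range N,
      (∑ z ∈ s, a z * (Jk M N m (x z) * Jk M N m' (y z))) ^ 2 =
      N * ∑ k ∈ FK (2 * M + 1), ‖∑ l ∈ FK (2 * M + 1), Bc k l *
        ex (((-l : ℤ) : ℝ) * (0 + 2 * Real.pi * m' / N))‖ ^ 2 := by
    intro m' _
    rw [Finset.sum_congr rfl fun m _ => h7 m m',
      pars (FK (2 * M + 1)) (fun k => -k) N hN1 hfr]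
  rw [Finset.sum_congr rfl h10, ← Finset.mul_sum, Finset.sum_comm]
  have h11 : ∀ k ∈ FK (2 * M + 1), ∑ m' ∈ range N, ‖∑ l ∈ FK (2 * M + 1), Bc k l *
      ex (((-l : ℤ) : ℝ) * (0 + 2 * Real.pi * m' / N))‖ ^ 2 =
      N * ∑ l ∈ FK (2 * M + 1), ‖Bc k l‖ ^ 2 := by
    intro k _
    rw [pars (FK (2 * M + 1)) (fun l => -l) N hN1 hfr]
  rw [Finset.sum_congr rfl h11, ← Finset.mul_sum, ← mul_assoc, ← sq]
  refine mul_le_mul_of_nonneg_left ?_ (by positivity)
  refine Finset.sum_le_sum fun k _ => Finset.sum_le_sum fun l _ => ?_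
  have hcf : ∀ k : ℤ, 0 ≤ cf M k / Q ∧ cf M k / Q ≤ 1 := by
    intro k
    refine ⟨div_nonneg (cf_nonneg M k) hQ0.le, ?_⟩
    rw [div_le_one hQ0, hQd]
    exact cf_le M k
  have h12 : ‖Bc k l‖ = (cf M k / Q) * (cf M l / Q) * ‖T k l‖ := by
    rw [hB]
    simp only [norm_mul, norm_div, norm_ex, one_mul, Complex.norm_real, Real.norm_eq_abs]
    rw [abs_of_pos hQ0, abs_of_nonneg (cf_nonneg M k), abs_of_nonneg (cf_nonneg M l)]
  have h13 : ‖Bc k l‖ ≤ ‖T k l‖ := by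
    rw [h12]
    have h14 : (cf M k / Q) * (cf M l / Q) ≤ 1 := mul_le_one₀ (hcf k).2 (hcf l).1 (hcf l).2
    calc (cf M k / Q) * (cf M l / Q) * ‖T k l‖ ≤ 1 * ‖T k l‖ :=
          mul_le_mul_of_nonneg_right h14 (norm_nonneg _)
      _ = ‖T k l‖ := one_mul _
  have h15 : ‖T k l‖ = ‖∑ z ∈ s, (a z : ℂ) * (ex (k * x z) * ex (l * y z))‖ := by rw [hT]
  rw [← h15]
  exact pow_le_pow_left₀ (norm_nonneg _) h13 2

open scoped Classical in
/-- sums over the cells of a division of the torus -/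
theorem cell_main {ι : Type*} (s : Finset ι) (x y a : ι → ℝ) (ha : ∀ z ∈ s, |a z| ≤ 1)
    (c₁ c₂ : ℝ → ℤ) (L₁ L₂ : Finset ℤ) (M : ℕ) (hM : 1 ≤ M) (δ : ℝ) (hδ : 0 < δ) :
    ∑ j ∈ L₁, ∑ i ∈ L₂, |∑ z ∈ s.filter (fun z => c₁ (x z) = j ∧ c₂ (y z) = i), a z| ≤
      Real.sqrt (∑ k ∈ FK (2 * M + 1), ∑ l ∈ FK (2 * M + 1),
        ‖∑ z ∈ s, (a z : ℂ) * (ex (k * x z) * ex (l * y z))‖ ^ 2) +
      2 * (((s.filter (fun z => ¬ Good c₁ δ (x z))).card : ℝ) +
        (s.filter (fun z => ¬ Good c₂ δ (y z))).card) +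
      4 * (s.card : ℝ) * (23 / (M * δ) ^ 2) := by
  obtain ⟨N, hN⟩ : ∃ N, N = 4 * M + 1 := ⟨_, rfl⟩
  have hN1 : 1 ≤ N := by omega
  have hN2 : 2 * M + 1 ≤ N := by omega
  have hN0 : (0 : ℝ) < N := by exact_mod_cast hN1
  -- weights
  obtain ⟨W, hW⟩ : ∃ W : ℤ → ℤ → ι → ℝ, W = fun j i z => Vk M N c₁ j (x z) * Vk M N c₂ i (y z) :=
    ⟨_, rfl⟩
  obtain ⟨e, he⟩ : ∃ e : ℤ → ℤ → ι → ℝ, e = fun j i z =>
    if c₁ (x z) = j ∧ c₂ (y z) = i then 1 else 0 := ⟨_, rfl⟩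
  have hW0 : ∀ j i z, 0 ≤ W j i z := by
    intro j i z
    rw [hW]
    exact mul_nonneg (Vk_nonneg hM _ _ _ _) (Vk_nonneg hM _ _ _ _)
  have hW1 : ∀ j i z, W j i z ≤ 1 := by
    intro j i z
    rw [hW]
    exact mul_le_one₀ (Vk_le hM hN2 _ _ _) (Vk_nonneg hM _ _ _ _) (Vk_le hM hN2 _ _ _)
  have hsplit : ∀ j i, |∑ z ∈ s.filter (fun z => c₁ (x z) = j ∧ c₂ (y z) = i), a z| ≤
      |∑ z ∈ s, a z * W j i z| + ∑ z ∈ s, (e j i z + W j i z - 2 * (e j i z * W j i z)) := by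
    intro j i
    have h1 : ∑ z ∈ s.filter (fun z => c₁ (x z) = j ∧ c₂ (y z) = i), a z =
        ∑ z ∈ s, a z * W j i z + ∑ z ∈ s, a z * (e j i z - W j i z) := by
      rw [← Finset.sum_add_distrib, Finset.sum_filter]
      refine Finset.sum_congr rfl fun z _ => ?_
      rw [he]
      dsimp only
      split_ifs <;> ring
    rw [h1]
    refine (abs_add_le _ _).trans (add_le_add le_rfl ?_)
    refine (Finset.abs_sum_le_sum_abs _ _).trans (Finset.sum_le_sum fun z hz => ?_)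
    rw [abs_mul]
    have h2 : |e j i z - W j i z| ≤ e j i z + W j i z - 2 * (e j i z * W j i z) := by
      have h3 := hW0 j i z
      have h4 := hW1 j i z
      rw [he]
      dsimp only
      split_ifs
      · rw [abs_of_nonneg (by linarith)]
        linarith
      · rw [abs_of_nonpos (by linarith)]
        linarith
    calc |a z| * |e j i z - W j i z| ≤ 1 * |e j i z - W j i z| :=
          mul_le_mul_of_nonneg_right (ha z hz) (abs_nonneg _)
      _ ≤ _ := by rw [one_mul]; exact h2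
  -- first part
  have hfirst : ∑ j ∈ L₁, ∑ i ∈ L₂, |∑ z ∈ s, a z * W j i z| ≤
      Real.sqrt (∑ k ∈ FK (2 * M + 1), ∑ l ∈ FK (2 * M + 1),
        ‖∑ z ∈ s, (a z : ℂ) * (ex (k * x z) * ex (l * y z))‖ ^ 2) := by
    obtain ⟨G, hG⟩ : ∃ G : ℕ → ℕ → ℝ, G = fun m m' =>
      ∑ z ∈ s, a z * (Jk M N m (x z) * Jk M N m' (y z)) := ⟨_, rfl⟩
    have h1 : ∀ j i, |∑ z ∈ s, a z * W j i z| ≤
        (1 / (N : ℝ)) ^ 2 * ∑ m ∈ (range N).filter (fun m => c₁ (gpt N m) = j),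
          ∑ m' ∈ (range N).filter (fun m => c₂ (gpt N m) = i), |G m m'| := by
      intro j i
      have h2 : ∑ z ∈ s, a z * W j i z =
          (1 / (N : ℝ)) ^ 2 * ∑ m ∈ (range N).filter (fun m => c₁ (gpt N m) = j),
            ∑ m' ∈ (range N).filter (fun m => c₂ (gpt N m) = i), G m m' := by
        rw [hW, hG]
        dsimp only
        rw [Finset.sum_congr rfl fun m _ => Finset.sum_comm, Finset.sum_comm, Finset.mul_sum]
        refine Finset.sum_congr rfl fun z _ => ?_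
        unfold Vk
        have h3 : ∑ m ∈ (range N).filter (fun m => c₁ (gpt N m) = j),
            ∑ m' ∈ (range N).filter (fun m => c₂ (gpt N m) = i),
              a z * (Jk M N m (x z) * Jk M N m' (y z)) =
            a z * ((∑ m ∈ (range N).filter (fun m => c₁ (gpt N m) = j), Jk M N m (x z)) *
              ∑ m' ∈ (range N).filter (fun m => c₂ (gpt N m) = i), Jk M N m' (y z)) := by
          rw [Finset.sum_mul_sum, Finset.mul_sum]
          exact Finset.sum_congr rfl fun m _ => (Finset.mul_sum _ _ _).symm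
        rw [h3]
        ring
      rw [h2, abs_mul, abs_of_nonneg (by positivity : (0 : ℝ) ≤ (1 / (N : ℝ)) ^ 2)]
      refine mul_le_mul_of_nonneg_left ?_ (by positivity)
      refine (Finset.abs_sum_le_sum_abs _ _).trans (Finset.sum_le_sum fun m _ => ?_)
      exact Finset.abs_sum_le_sum_abs _ _
    have h2 : ∑ j ∈ L₁, ∑ i ∈ L₂, |∑ z ∈ s, a z * W j i z| ≤
        (1 / (N : ℝ)) ^ 2 * ∑ m ∈ range N, ∑ m' ∈ range N, |G m m'| := by
      refine (Finset.sum_le_sum fun j _ => Finset.sum_le_sum fun i _ => h1 j i).trans ?_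
      rw [Finset.sum_congr rfl fun j _ => (Finset.mul_sum _ _ _).symm, ← Finset.mul_sum]
      refine mul_le_mul_of_nonneg_left ?_ (by positivity)
      have h3 : ∀ j ∈ L₁, ∑ i ∈ L₂, ∑ m ∈ (range N).filter (fun m => c₁ (gpt N m) = j),
          ∑ m' ∈ (range N).filter (fun m => c₂ (gpt N m) = i), |G m m'| ≤
          ∑ m ∈ (range N).filter (fun m => c₁ (gpt N m) = j), ∑ m' ∈ range N, |G m m'| := by
        intro j _
        rw [Finset.sum_comm]
        refine Finset.sum_le_sum fun m _ => ?_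
        exact fib_le L₂ N (fun m => c₂ (gpt N m)) (fun m' => |G m m'|) fun _ => abs_nonneg _
      refine (Finset.sum_le_sum h3).trans ?_
      exact fib_le L₁ N (fun m => c₁ (gpt N m)) (fun m => ∑ m' ∈ range N, |G m m'|)
        fun _ => Finset.sum_nonneg fun _ _ => abs_nonneg _
    refine h2.trans ?_
    apply Real.le_sqrt_of_sq_le
    have h3 : (∑ m ∈ range N, ∑ m' ∈ range N, |G m m'|) ^ 2 ≤
        (N : ℝ) ^ 2 * ∑ m ∈ range N, ∑ m' ∈ range N, (G m m') ^ 2 := by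
      have h4 := sq_sum_le_card_mul_sum_sq (s := range N ×ˢ range N)
        (f := fun p : ℕ × ℕ => |G p.1 p.2|)
      rw [Finset.sum_product, Finset.sum_product, card_product, card_range] at h4
      simp only [sq_abs] at h4
      push_cast at h4
      rw [← sq] at h4
      exact h4
    have h5 := parseval2 s x y a hM hN2 (by omega : 4 * M + 1 ≤ N)
    rw [mul_pow]
    have h6 : ∑ m ∈ range N, ∑ m' ∈ range N, (G m m') ^ 2 ≤
        (N : ℝ) ^ 2 * ∑ k ∈ FK (2 * M + 1), ∑ l ∈ FK (2 * M + 1),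
          ‖∑ z ∈ s, (a z : ℂ) * (ex (k * x z) * ex (l * y z))‖ ^ 2 := by
      rw [hG]
      exact h5
    have h7 := h3.trans (mul_le_mul_of_nonneg_left h6 (by positivity))
    have h8 := mul_le_mul_of_nonneg_left h7 (show 0 ≤ ((1 / (N : ℝ)) ^ 2) ^ 2 by positivity)
    refine h8.trans (le_of_eq ?_)
    field_simp
  -- second part
  have hsecond : ∀ z ∈ s, ∑ j ∈ L₁, ∑ i ∈ L₂, (e j i z + W j i z - 2 * (e j i z * W j i z)) ≤
      2 * ((if ¬ Good c₁ δ (x z) then 1 else 0) + (if ¬ Good c₂ δ (y z) then 1 else 0)) +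
      4 * (23 / (M * δ) ^ 2) := by
    intro z _
    obtain ⟨v₁, hv₁⟩ : ∃ v, v = Vk M N c₁ (c₁ (x z)) (x z) := ⟨_, rfl⟩
    obtain ⟨v₂, hv₂⟩ : ∃ v, v = Vk M N c₂ (c₂ (y z)) (y z) := ⟨_, rfl⟩
    have hv₁0 : 0 ≤ v₁ := by rw [hv₁]; exact Vk_nonneg hM _ _ _ _
    have hv₂0 : 0 ≤ v₂ := by rw [hv₂]; exact Vk_nonneg hM _ _ _ _
    have hv₁1 : v₁ ≤ 1 := by rw [hv₁]; exact Vk_le hM hN2 _ _ _
    have hv₂1 : v₂ ≤ 1 := by rw [hv₂]; exact Vk_le hM hN2 _ _ _
    have hown : W (c₁ (x z)) (c₂ (y z)) z = v₁ * v₂ := by rw [hW, hv₁, hv₂]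
    have hsumW : ∀ (A B : Finset ℤ), ∑ j ∈ A, ∑ i ∈ B, W j i z ≤ 1 := by
      intro A B
      have h1 : ∑ j ∈ A, ∑ i ∈ B, W j i z =
          (∑ j ∈ A, Vk M N c₁ j (x z)) * ∑ i ∈ B, Vk M N c₂ i (y z) := by
        rw [Finset.sum_mul_sum, hW]
      rw [h1]
      exact mul_le_one₀ (Vk_sum_le hM hN2 c₁ A (x z))
        (Finset.sum_nonneg fun _ _ => Vk_nonneg hM _ _ _ _) (Vk_sum_le hM hN2 c₂ B (y z))
    have hmain : ∑ j ∈ L₁, ∑ i ∈ L₂, (e j i z + W j i z - 2 * (e j i z * W j i z)) ≤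
        2 * (1 - v₁ * v₂) := by
      by_cases hin : c₁ (x z) ∈ L₁ ∧ c₂ (y z) ∈ L₂
      · have h1 : ∑ j ∈ L₁, ∑ i ∈ L₂, e j i z = 1 := by
          rw [Finset.sum_eq_single_of_mem _ hin.1, Finset.sum_eq_single_of_mem _ hin.2]
          · rw [he]
            dsimp only
            rw [if_pos ⟨rfl, rfl⟩]
          · intro i _ hi
            rw [he]
            dsimp only
            rw [if_neg (fun h => hi h.2.symm)]
          · intro j _ hj
            refine Finset.sum_eq_zero fun i _ => ?_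
            rw [he]
            dsimp only
            rw [if_neg (fun h => hj h.1.symm)]
        have h2 : ∑ j ∈ L₁, ∑ i ∈ L₂, e j i z * W j i z = v₁ * v₂ := by
          rw [Finset.sum_eq_single_of_mem _ hin.1, Finset.sum_eq_single_of_mem _ hin.2]
          · rw [he]
            dsimp only
            rw [if_pos ⟨rfl, rfl⟩, one_mul, hown]
          · intro i _ hi
            rw [he]
            dsimp only
            rw [if_neg (fun h => hi h.2.symm), zero_mul]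
          · intro j _ hj
            refine Finset.sum_eq_zero fun i _ => ?_
            rw [he]
            dsimp only
            rw [if_neg (fun h => hj h.1.symm), zero_mul]
        simp only [Finset.sum_sub_distrib, Finset.sum_add_distrib, ← Finset.mul_sum]
        rw [h1, h2]
        have h3 := hsumW L₁ L₂
        linarith
      · have h1 : ∀ j ∈ L₁, ∀ i ∈ L₂, e j i z = 0 := by
          intro j hj i hi
          rw [he]
          dsimp only
          rw [if_neg]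
          rintro ⟨h, h'⟩
          exact hin ⟨h ▸ hj, h' ▸ hi⟩
        have h2 : ∑ j ∈ L₁, ∑ i ∈ L₂, (e j i z + W j i z - 2 * (e j i z * W j i z)) =
            ∑ j ∈ L₁, ∑ i ∈ L₂, W j i z := by
          refine Finset.sum_congr rfl fun j hj => Finset.sum_congr rfl fun i hi => ?_
          rw [h1 j hj i hi]
          ring
        rw [h2]
        have h3 : ∑ j ∈ L₁, ∑ i ∈ L₂, W j i z + v₁ * v₂ ≤ 1 := by
          have h4 := hsumW (insert (c₁ (x z)) L₁) (insert (c₂ (y z)) L₂)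
          refine le_trans ?_ h4
          rw [← Finset.sum_product', ← Finset.sum_product', ← hown]
          have h5 : (c₁ (x z), c₂ (y z)) ∉ L₁ ×ˢ L₂ := fun h => hin (mem_product.1 h)
          have h6 : ∑ p ∈ insert (c₁ (x z), c₂ (y z)) (L₁ ×ˢ L₂), W p.1 p.2 z =
              W (c₁ (x z)) (c₂ (y z)) z + ∑ p ∈ L₁ ×ˢ L₂, W p.1 p.2 z := sum_insert h5
          rw [add_comm, ← h6]
          refine Finset.sum_le_sum_of_subset_of_nonneg ?_ fun p _ _ => hW0 _ _ _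
          intro p hp
          rw [mem_insert] at hp
          rcases hp with rfl | hp
          · exact mem_product.2 ⟨mem_insert_self _ _, mem_insert_self _ _⟩
          · rw [mem_product] at hp ⊢
            exact ⟨mem_insert_of_mem hp.1, mem_insert_of_mem hp.2⟩
        have h4 : v₁ * v₂ ≤ 1 := mul_le_one₀ hv₁1 hv₂0 hv₂1
        linarith
    refine hmain.trans ?_
    have h1 := Vk_bad hM hN2 (c := c₁) hδ (x z)
    have h2 := Vk_bad hM hN2 (c := c₂) hδ (y z)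
    rw [← hv₁] at h1
    rw [← hv₂] at h2
    have h3 : 1 - v₁ * v₂ ≤ (1 - v₁) + (1 - v₂) := by nlinarith
    linarith
  have hfin : ∑ j ∈ L₁, ∑ i ∈ L₂, ∑ z ∈ s, (e j i z + W j i z - 2 * (e j i z * W j i z)) ≤
      2 * (((s.filter (fun z => ¬ Good c₁ δ (x z))).card : ℝ) +
        (s.filter (fun z => ¬ Good c₂ δ (y z))).card) +
      4 * (s.card : ℝ) * (23 / (M * δ) ^ 2) := by
    rw [Finset.sum_congr rfl fun j _ => Finset.sum_comm, Finset.sum_comm]
    refine (Finset.sum_le_sum hsecond).trans ?_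
    have hcard : ∀ (p : ι → Prop) [DecidablePred p],
        ((s.filter p).card : ℝ) = ∑ z ∈ s, (if p z then (1 : ℝ) else 0) := by
      intro p _
      rw [Finset.card_filter]
      push_cast
      rfl
    rw [Finset.sum_add_distrib, ← Finset.mul_sum, Finset.sum_add_distrib, Finset.sum_const,
      nsmul_eq_mul, ← hcard, ← hcard]
    apply le_of_eq
    ring
  calc ∑ j ∈ L₁, ∑ i ∈ L₂, |∑ z ∈ s.filter (fun z => c₁ (x z) = j ∧ c₂ (y z) = i), a z|
      ≤ ∑ j ∈ L₁, ∑ i ∈ L₂, (|∑ z ∈ s, a z * W j i z| +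
        ∑ z ∈ s, (e j i z + W j i z - 2 * (e j i z * W j i z))) :=
        Finset.sum_le_sum fun j _ => Finset.sum_le_sum fun i _ => hsplit j i
    _ = ∑ j ∈ L₁, ∑ i ∈ L₂, |∑ z ∈ s, a z * W j i z| +
        ∑ j ∈ L₁, ∑ i ∈ L₂, ∑ z ∈ s, (e j i z + W j i z - 2 * (e j i z * W j i z)) := by
        simp only [Finset.sum_add_distrib]
    _ ≤ _ := by linarith

end Pool.Agent.N814.MS
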