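import Pool.Agent.N814.MS.Fix

/-!
# Project MS (helper912), CELLS: from the frequencies to the sums over polar cells
-/

set_option autoImplicit false

namespace Pool.Agent.N814.MS

open Finset
open Pool.Agent.W78.GA
open Pool.Agent.N912.MS (Gi FB G2 aix lix S_CELLS)

theorem cells : S_CELLS := by
  classical
  obtain ⟨C, hC, hfix⟩ := cells_fix
  intro f hf hyp ε hε
  obtain ⟨m, hm1, hmC⟩ : ∃ m : ℕ, 1 ≤ m ∧ 4 * C / ε ≤ m := by
    obtain ⟨m, hm⟩ := exists_nat_ge (4 * C / ε)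
    exact ⟨max 1 m, le_max_left _ _, hm.trans (by exact_mod_cast le_max_right _ _)⟩
  have hm0 : (0 : ℝ) < m := by exact_mod_cast hm1
  obtain ⟨h', hh', Y₀, hY⟩ := hyp ((ε / 22) ^ 2) (by positivity)
  have hh0 : 0 < h' := by linarith
  obtain ⟨H, hH⟩ : ∃ H, H = 1 + 128 * C * h' / ε := ⟨_, rfl⟩
  have hH1 : 1 ≤ H := by
    rw [hH]
    have : 0 ≤ 128 * C * h' / ε := by positivity
    linarith
  have hH0 : 0 < H := by linarith
  have hHH : 128 * C * h' / ε ≤ H ^ 2 := by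
    have h1 : 128 * C * h' / ε ≤ H := by rw [hH]; linarith
    nlinarith
  obtain ⟨h₀, hh₀⟩ : ∃ h₀, h₀ = 4 * C * m * (H + 1) / ε := ⟨_, rfl⟩
  have hh₀0 : 0 < h₀ := by rw [hh₀]; positivity
  refine ⟨h₀ ^ 2 + 1, by nlinarith, max 3 (max Y₀ (max (8 * h') (4 * H ^ 2))), ?_⟩
  intro X hX n hn hnX
  rw [max_le_iff, max_le_iff, max_le_iff] at hX
  obtain ⟨hX3, hXY, hX8, hXH⟩ := hX
  have hX0 : 0 < X := by linarith
  have hn0 : (0 : ℝ) < n := by exact_mod_cast hn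
  obtain ⟨Q, hQ⟩ : ∃ Q, Q = X / (8 * h') := ⟨_, rfl⟩
  have hQ1 : 1 ≤ Q := by
    rw [hQ, le_div_iff₀ (by positivity)]
    linarith
  have hQX : 8 * h' * Q = X := by
    rw [hQ]
    field_simp
  obtain ⟨M, hM⟩ : ∃ M, M = ⌊Real.sqrt Q⌋₊ := ⟨_, rfl⟩
  have hM1 : 1 ≤ M := by
    rw [hM]
    apply Nat.le_floor
    rw [Nat.cast_one]
    exact Real.one_le_sqrt.2 hQ1
  have hMr : (1 : ℝ) ≤ M := by exact_mod_cast hM1
  have hM0 : (0 : ℝ) < M := by linarith
  have hsQ := Real.sq_sqrt (by linarith : 0 ≤ Q)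
  have hsQ0 := Real.sqrt_nonneg Q
  have hM2 : (M : ℝ) ^ 2 ≤ Q := by
    have h1 : (M : ℝ) ≤ Real.sqrt Q := by
      rw [hM]
      exact Nat.floor_le hsQ0
    nlinarith
  have hM3 : Q ≤ 4 * (M : ℝ) ^ 2 := by
    have h1 : Real.sqrt Q < M + 1 := by
      rw [hM]
      exact Nat.lt_floor_add_one _
    have h2 : Real.sqrt Q ≤ 2 * M := by linarith
    nlinarith
  obtain ⟨q, hq⟩ : ∃ q, q = Real.sqrt X := ⟨_, rfl⟩
  have hq0 : 0 < q := by rw [hq]; exact Real.sqrt_pos.2 hX0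
  have hqq : q * q = X := by rw [hq]; exact Real.mul_self_sqrt hX0.le
  have hHq : 2 * H ≤ q := by
    rw [hq]
    apply Real.le_sqrt_of_sq_le
    linarith
  have hδ0 : 0 < H / q := by positivity
  have hδ1 : H / q ≤ 1 / 2 := by
    rw [div_le_iff₀ hq0]
    linarith
  have key := hfix f hf X n m M (H / q) hX3 hn hm1 hM1 hδ0 hδ1
  rw [← hq] at key
  -- frequencies
  have hfr : Real.sqrt (∑ κ ∈ FB (4 * M ^ 2 + 1), ‖G2 f (Real.exp (1 / 2) * X) κ‖ ^ 2) ≤
      ε / 22 := by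
    have he : 1 ≤ Real.exp (1 / 2) := Real.one_le_exp (by norm_num)
    have hYX : X ≤ Real.exp (1 / 2) * X := by nlinarith
    have h1 := hY (Real.exp (1 / 2) * X) (hXY.trans hYX)
    have h2 : 4 * M ^ 2 + 1 ≤ ⌊Real.exp (1 / 2) * X / h'⌋₊ := by
      apply Nat.le_floor
      push_cast
      have h3 : X / h' ≤ Real.exp (1 / 2) * X / h' := div_le_div_of_nonneg_right hYX hh0.le
      have h4 : X / h' = 8 * Q := by
        rw [← hQX]
        field_simp
      linarith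
    rw [Real.sqrt_le_left (by positivity)]
    refine le_trans ?_ h1
    exact Finset.sum_le_sum_of_subset_of_nonneg (FB_mono h2) fun _ _ _ => by positivity
  have e1 : 11 * (X / 2 * Real.sqrt (∑ κ ∈ FB (4 * M ^ 2 + 1),
      ‖G2 f (Real.exp (1 / 2) * X) κ‖ ^ 2)) ≤ ε / 4 * X := by
    have := mul_le_mul_of_nonneg_left hfr (by positivity : 0 ≤ 11 * (X / 2))
    linarith
  -- boundaries
  have e2 : C * (n * m * (H / q * X + q)) ≤ ε / 4 * X := by
    have h1 : H / q * X = H * q := by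
      rw [← hqq]
      field_simp
    have h2 : (n : ℝ) * h₀ ≤ q := by
      rw [hq]
      apply Real.le_sqrt_of_sq_le
      have h3 : (0 : ℝ) ≤ (n : ℝ) ^ 2 := by positivity
      have h4 : ((n : ℝ) * h₀) ^ 2 = (n : ℝ) ^ 2 * (h₀ ^ 2 + 1) - (n : ℝ) ^ 2 := by ring
      rw [h4]
      linarith
    have h3 : (n : ℝ) * (4 * C * m * (H + 1)) ≤ ε * q := by
      rw [hh₀, ← mul_div_assoc, div_le_iff₀ hε] at h2
      linarith
    have h4 := mul_le_mul_of_nonneg_right h3 hq0.le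
    rw [h1]
    have h5 : ε * q * q = ε * X := by rw [mul_assoc, hqq]
    have h6 : C * (n * m * (H * q + q)) = (n : ℝ) * (4 * C * m * (H + 1)) * q / 4 := by ring
    rw [h6]
    linarith
  have e3 : C * (X / (M * (H / q)) ^ 2) ≤ ε / 4 * X := by
    have h1 : (M * (H / q)) ^ 2 = (M : ℝ) ^ 2 * H ^ 2 / X := by
      rw [← hqq]
      field_simp
    have h2 : 0 < (M : ℝ) ^ 2 * H ^ 2 := by positivity
    rw [h1]
    have h3 : C * (X / ((M : ℝ) ^ 2 * H ^ 2 / X)) = C * X * X / ((M : ℝ) ^ 2 * H ^ 2) := by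
      field_simp
    rw [h3, div_le_iff₀ h2]
    rw [div_le_iff₀ hε] at hHH
    have h4 : X ≤ 32 * h' * (M : ℝ) ^ 2 := by
      have h5 := mul_le_mul_of_nonneg_left hM3 (by positivity : 0 ≤ 8 * h')
      linarith
    have h5 : C * X * X ≤ C * X * (32 * h' * (M : ℝ) ^ 2) :=
      mul_le_mul_of_nonneg_left h4 (by positivity)
    have h6 : X * (M : ℝ) ^ 2 * (128 * C * h') ≤ X * (M : ℝ) ^ 2 * (H ^ 2 * ε) :=
      mul_le_mul_of_nonneg_left hHH (by positivity)
    linarith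
  have e4 : C * (X / m) ≤ ε / 4 * X := by
    rw [div_le_iff₀ hε] at hmC
    rw [← mul_div_assoc, div_le_iff₀ hm0]
    have := mul_le_mul_of_nonneg_right hmC hX0.le
    linarith
  have h9 : C * (n * m * (H / q * X + q) + X / (M * (H / q)) ^ 2 + X / m) =
      C * (n * m * (H / q * X + q)) + C * (X / (M * (H / q)) ^ 2) + C * (X / m) := by ring
  rw [h9] at key
  refine le_trans (le_of_eq ?_) (key.trans (by linarith : _ ≤ ε * X))
  rfl

end Pool.Agent.N814.MS
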