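import Pool.Agent.N814.MS.Cell
import Pool.Agent.N912.MS.Stm
import Pool.Agent.W883.EC.M5b

/-!
# Project MS (helper912), CELLS: counting of lattice points near the boundaries of the cells
-/

set_option autoImplicit false

namespace Pool.Agent.N814.MS

open Finset
open Pool.Agent.W78.GA
open Pool.Agent.W883.EC (Bd bad_count hD01)
open Pool.Agent.N912.MS (Gi)

lemma ball_count : ∃ κ C : ℝ, 0 < κ ∧ 0 < C ∧
    (∀ X : ℝ, 1 ≤ X → ((ball 0 1 X).card : ℝ) ≤ (κ + C) * X) ∧
    (∀ A B : ℝ, 1 ≤ A → A ≤ B →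
      (((ball 0 1 B).filter (fun z => A < (nm z : ℝ))).card : ℝ) ≤
        κ * (B - A) + 2 * C * Real.sqrt B) := by
  obtain ⟨C, hC, hlat, _⟩ := Pool.Agent.W45.GA.lat hD01
  have hk : 0 < kap 0 1 := by
    unfold kap
    have hpi := Real.pi_pos
    have : 0 < Real.sqrt (4 * ((1 : ℤ) : ℝ) - ((0 : ℤ) : ℝ) ^ 2) := by
      apply Real.sqrt_pos.2
      norm_num
    positivity
  have hcount : ∀ X : ℝ, 1 ≤ X → |((ball 0 1 X).card : ℝ) - kap 0 1 * X| ≤ C * Real.sqrt X := by
    intro X hX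
    have h := hlat X 1 0 hX le_rfl
    have h1 : (ball 0 1 X).filter (lat 1 0) = ball 0 1 X := by
      apply Finset.filter_true_of_mem
      intro z _
      unfold lat
      simp
    rw [h1] at h
    simpa using h
  refine ⟨kap 0 1, C, hk, hC, ?_, ?_⟩
  · intro X hX
    have h1 := (abs_le.1 (hcount X hX)).2
    have h3 : Real.sqrt X ≤ X := by
      rw [Real.sqrt_le_left (by linarith)]
      nlinarith
    have h4 : C * Real.sqrt X ≤ C * X := mul_le_mul_of_nonneg_left h3 hC.le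
    linarith
  · intro A B hA hAB
    have h1 := (abs_le.1 (hcount B (hA.trans hAB))).2
    have h2 := (abs_le.1 (hcount A hA)).1
    have hsub : ball 0 1 A ⊆ ball 0 1 B := by
      intro z hz
      rw [mem_ball hD01] at hz ⊢
      exact ⟨hz.1, hz.2.trans hAB⟩
    have h3 : ((ball 0 1 B).filter (fun z => A < (nm z : ℝ))).card ≤
        (ball 0 1 B \ ball 0 1 A).card := by
      apply Finset.card_le_card
      intro z hz
      rw [mem_filter, mem_ball hD01] at hz
      rw [mem_sdiff, mem_ball hD01, mem_ball hD01]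
      refine ⟨hz.1, ?_⟩
      rintro ⟨_, h⟩
      linarith [hz.2]
    rw [Finset.card_sdiff_of_subset hsub] at h3
    have h4 : (((ball 0 1 B).filter (fun z => A < (nm z : ℝ))).card : ℝ) ≤
        ((ball 0 1 B).card : ℝ) - ((ball 0 1 A).card : ℝ) := by
      have h5 : (ball 0 1 A).card ≤ (ball 0 1 B).card := Finset.card_le_card hsub
      have h6 : (((ball 0 1 B).card - (ball 0 1 A).card : ℕ) : ℝ) =
        ((ball 0 1 B).card : ℝ) - ((ball 0 1 A).card : ℝ) := Nat.cast_sub h5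
      rw [← h6]
      exact_mod_cast h3
    have h5 : Real.sqrt A ≤ Real.sqrt B := Real.sqrt_le_sqrt hAB
    have h6 : C * Real.sqrt A ≤ C * Real.sqrt B := mul_le_mul_of_nonneg_left h5 hC.le
    linarith

lemma inv_sq_sum (D : ℕ) : ∑ d ∈ Icc 1 D, 1 / (d : ℝ) ^ 2 ≤ 2 - 1 / (D : ℝ) := by
  induction D with
  | zero => simp
  | succ D ih =>
    rw [Finset.sum_Icc_succ_top (by omega)]
    rcases Nat.eq_zero_or_pos D with h | h
    · subst h
      norm_num
    · have hD : (0 : ℝ) < D := by exact_mod_cast h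
      have h1 : 1 / ((D : ℝ) + 1) ^ 2 ≤ 1 / (D : ℝ) - 1 / ((D : ℝ) + 1) := by
        have h2 : 1 / (D : ℝ) - 1 / ((D : ℝ) + 1) = 1 / ((D : ℝ) * (D + 1)) := by
          field_simp
          ring
        rw [h2]
        apply one_div_le_one_div_of_le (by positivity)
        nlinarith
      push_cast
      linarith

/-- the coordinates divided by `d` -/
def qt (d : ℕ) (z : Gi) : Gi := ⟨z.re / d, z.im / d⟩

lemma qt_spec {d : ℕ} {z : Gi} (hz : z ≠ 0) (hd : Int.gcd z.re z.im = d) :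
    1 ≤ d ∧ z = (d : Gi) * qt d z ∧ prim (qt d z) := by
  have h0 : z.re ≠ 0 ∨ z.im ≠ 0 := by
    by_contra hcon
    push Not at hcon
    exact hz (QuadraticAlgebra.ext hcon.1 hcon.2)
  have h1 : 0 < Int.gcd z.re z.im := Int.gcd_pos_iff.2 h0
  refine ⟨by omega, ?_, ?_⟩
  · have h2 : (d : ℤ) ∣ z.re := by rw [← hd]; exact Int.gcd_dvd_left ..
    have h3 : (d : ℤ) ∣ z.im := by rw [← hd]; exact Int.gcd_dvd_right ..
    apply QuadraticAlgebra.ext
    · rw [QuadraticAlgebra.re_mul, QuadraticAlgebra.re_natCast, QuadraticAlgebra.im_natCast]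
      unfold qt
      dsimp only
      rw [Int.mul_ediv_cancel' h2]
      ring
    · rw [QuadraticAlgebra.im_mul, QuadraticAlgebra.re_natCast, QuadraticAlgebra.im_natCast]
      unfold qt
      dsimp only
      rw [Int.mul_ediv_cancel' h3]
      ring
  · unfold prim qt
    dsimp only
    rw [← hd]
    exact Int.gcd_ediv_gcd_ediv_gcd h1

open scoped Classical in
lemma bad_ball : ∃ C : ℝ, 0 < C ∧ ∀ (X δ : ℝ) (n : ℕ), 1 ≤ X → 0 ≤ δ → δ ≤ Real.pi →
    (((ball 0 1 X).filter (fun z => Bd n δ (ang z))).card : ℝ) ≤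
      ((n : ℝ) + 1) * (C * (2 * X * δ + Real.sqrt X)) := by
  obtain ⟨C, hC, h⟩ := bad_count
  refine ⟨C, hC, ?_⟩
  intro X δ n hX hδ hδ'
  have hX0 : 0 < X := by linarith
  have hmaps : ∀ z ∈ (ball 0 1 X).filter (fun z => Bd n δ (ang z)),
      Int.gcd z.re z.im ∈ Icc 1 ⌊Real.sqrt X⌋₊ := by
    intro z hz
    rw [mem_filter, mem_ball hD01] at hz
    have hz0 : z ≠ 0 := (one_le_nm hD01).1 hz.1.1
    obtain ⟨h1, h2, h3⟩ := qt_spec hz0 rfl
    rw [mem_Icc]
    refine ⟨h1, Nat.le_floor ?_⟩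
    apply Real.le_sqrt_of_sq_le
    have h4 : nm z = (Int.gcd z.re z.im) ^ 2 * nm (qt (Int.gcd z.re z.im) z) := by
      conv_lhs => rw [h2]
      rw [nm_mul, nm_natCast]
    have h5 : 1 ≤ nm (qt (Int.gcd z.re z.im) z) := (one_le_nm hD01).2 (prim_ne_zero h3)
    have h6 : (Int.gcd z.re z.im) ^ 2 ≤ nm z := by
      rw [h4]
      exact Nat.le_mul_of_pos_right _ h5
    have h7 : ((Int.gcd z.re z.im : ℕ) : ℝ) ^ 2 ≤ (nm z : ℝ) := by exact_mod_cast h6
    exact h7.trans hz.1.2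
  rw [Finset.card_eq_sum_card_fiberwise hmaps]
  push_cast
  have hd2 : ∀ d ∈ Icc 1 ⌊Real.sqrt X⌋₊, 0 < (d : ℝ) ∧ (d : ℝ) ^ 2 ≤ X := by
    intro d hd
    rw [mem_Icc] at hd
    have h1 : (0 : ℝ) < d := by exact_mod_cast hd.1
    refine ⟨h1, ?_⟩
    have h2 : (d : ℝ) ≤ Real.sqrt X := (Nat.le_floor_iff (Real.sqrt_nonneg X)).1 hd.2
    calc (d : ℝ) ^ 2 ≤ Real.sqrt X ^ 2 := pow_le_pow_left₀ h1.le h2 2
      _ = X := Real.sq_sqrt hX0.le
  have h1 : ∀ d ∈ Icc 1 ⌊Real.sqrt X⌋₊,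
      ((((ball 0 1 X).filter (fun z => Bd n δ (ang z))).filter
        (fun z => Int.gcd z.re z.im = d)).card : ℝ) ≤
      ((n : ℝ) + 1) * (C * (X / (d : ℝ) ^ 2 * δ + 1)) := by
    intro d hd
    obtain ⟨hd0, hdX⟩ := hd2 d hd
    have h2 := h (X / (d : ℝ) ^ 2) δ n (by rw [le_div_iff₀ (by positivity)]; linarith) hδ hδ'
    refine le_trans ?_ h2
    refine Nat.cast_le.2 ?_
    have key : ∀ z ∈ (((ball 0 1 X).filter (fun z => Bd n δ (ang z))).filter
        (fun z => Int.gcd z.re z.im = d)), z = (d : Gi) * qt d z ∧ prim (qt d z) ∧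
        (nm (qt d z) : ℝ) ≤ X / (d : ℝ) ^ 2 ∧ Bd n δ (ang (qt d z)) := by
      intro z hz
      rw [mem_filter, mem_filter, mem_ball hD01] at hz
      have hz0 : z ≠ 0 := (one_le_nm hD01).1 hz.1.1.1
      obtain ⟨_, h3, h4⟩ := qt_spec hz0 hz.2
      have h5 : nm z = d ^ 2 * nm (qt d z) := by
        conv_lhs => rw [h3]
        rw [nm_mul, nm_natCast]
      have h6 : ang z = ang (qt d z) := by
        conv_lhs => rw [h3]
        unfold ang
        rw [tc_mul hD01, tc_natCast]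
        have h7 := Complex.arg_real_mul (tc (qt d z)) hd0
        push_cast at h7
        exact h7
      refine ⟨h3, h4, ?_, h6 ▸ hz.1.2⟩
      rw [le_div_iff₀ (by positivity)]
      have h7 : (nm z : ℝ) = (d : ℝ) ^ 2 * nm (qt d z) := by exact_mod_cast h5
      linarith [hz.1.1.2]
    apply Finset.card_le_card_of_injOn (qt d)
    · intro z hz
      obtain ⟨_, h4, h5, h6⟩ := key z hz
      rw [Finset.mem_coe, mem_filter, mem_pball hD01]
      exact ⟨⟨h4, h5⟩, h6⟩
    · intro z hz z' hz' heq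
      rw [(key z hz).1, (key z' hz').1, heq]
  refine (Finset.sum_le_sum h1).trans ?_
  rw [← Finset.mul_sum, ← Finset.mul_sum]
  have hn0 : (0 : ℝ) ≤ (n : ℝ) + 1 := by positivity
  refine mul_le_mul_of_nonneg_left (mul_le_mul_of_nonneg_left ?_ hC.le) hn0
  have h2 : ∑ d ∈ Icc 1 ⌊Real.sqrt X⌋₊, (X / (d : ℝ) ^ 2 * δ + 1) =
      X * δ * ∑ d ∈ Icc 1 ⌊Real.sqrt X⌋₊, 1 / (d : ℝ) ^ 2 + ⌊Real.sqrt X⌋₊ := by
    rw [Finset.sum_add_distrib, Finset.sum_const, Nat.card_Icc, Finset.mul_sum, nsmul_eq_mul,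
      mul_one, Nat.add_sub_cancel]
    congr 1
    refine Finset.sum_congr rfl fun d _ => ?_
    ring
  rw [h2]
  have h3 := inv_sq_sum ⌊Real.sqrt X⌋₊
  have h4 : (0 : ℝ) ≤ 1 / (⌊Real.sqrt X⌋₊ : ℝ) := by positivity
  have h5 : ∑ d ∈ Icc 1 ⌊Real.sqrt X⌋₊, 1 / (d : ℝ) ^ 2 ≤ 2 := by linarith
  have h6 := mul_le_mul_of_nonneg_left h5 (by positivity : 0 ≤ X * δ)
  have h7 : (⌊Real.sqrt X⌋₊ : ℝ) ≤ Real.sqrt X := Nat.floor_le (Real.sqrt_nonneg X)
  linarith

/-! ### the radial index -/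

open scoped Classical in
/-- the radial index -/
noncomputable def cr (N : ℕ) (u : ℝ) : ℤ := if 0 ≤ u ∧ u < 1 then ⌊(N : ℝ) * u⌋ else -1

/-- the angular index -/
noncomputable def ca (n : ℕ) (u : ℝ) : ℤ := ⌊(u + Real.pi) * n / (2 * Real.pi)⌋

lemma cr_jump {N : ℕ} (hN : 1 ≤ N) {u v : ℝ} (huv : u < v) (h : cr N u ≠ cr N v) :
    ∃ i ∈ range (N + 1), u < (i : ℝ) / N ∧ (i : ℝ) / N ≤ v := by
  have hN0 : (0 : ℝ) < N := by exact_mod_cast hN
  by_contra hcon
  push Not at hcon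
  apply h
  by_cases h1 : u < 0
  · have h2 := hcon 0 (by rw [mem_range]; omega)
    rw [Nat.cast_zero, zero_div] at h2
    have h3 := h2 h1
    unfold cr
    rw [if_neg (fun h => absurd h.1 (not_le.2 h1)), if_neg (fun h => absurd h.1 (not_le.2 h3))]
  · push Not at h1
    by_cases h2 : u < 1
    · have h3 : (0 : ℝ) ≤ N * u := by positivity
      have h4 : (N : ℝ) * u < N := by nlinarith
      have h5 : 0 ≤ ⌊(N : ℝ) * u⌋ := Int.floor_nonneg.2 h3
      have h6 : ⌊(N : ℝ) * u⌋ < N := by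
        rw [Int.floor_lt]
        exact_mod_cast h4
      have hc : ((⌊(N : ℝ) * u⌋.toNat : ℕ) : ℤ) = ⌊(N : ℝ) * u⌋ := Int.toNat_of_nonneg h5
      have hcR : ((⌊(N : ℝ) * u⌋.toNat : ℕ) : ℝ) = (⌊(N : ℝ) * u⌋ : ℝ) := by exact_mod_cast hc
      have h7 := hcon (⌊(N : ℝ) * u⌋.toNat + 1) (by rw [mem_range]; omega)
      push_cast at h7
      rw [hcR] at h7
      have h8 : u < ((⌊(N : ℝ) * u⌋ : ℝ) + 1) / N := by
        rw [lt_div_iff₀ hN0, mul_comm]
        exact Int.lt_floor_add_one _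
      have h9 := h7 h8
      have h10 : ((⌊(N : ℝ) * u⌋ : ℝ) + 1) / N ≤ 1 := by
        rw [div_le_one hN0]
        exact_mod_cast h6
      have h11 : v < 1 := lt_of_lt_of_le h9 h10
      unfold cr
      rw [if_pos ⟨h1, h2⟩, if_pos ⟨h1.trans huv.le, h11⟩]
      symm
      rw [Int.floor_eq_iff]
      constructor
      · have h12 : (⌊(N : ℝ) * u⌋ : ℝ) ≤ N * u := Int.floor_le _
        nlinarith
      · rw [lt_div_iff₀ hN0] at h9
        linarith
    · push Not at h2
      unfold cr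
      rw [if_neg (fun h => absurd h.2 (not_lt.2 h2)),
        if_neg (fun h => absurd h.2 (not_lt.2 (h2.trans huv.le)))]

lemma good_r {N : ℕ} (hN : 1 ≤ N) {δ y : ℝ} (hδ1 : δ ≤ 1) (hy : -(1 / 2) ≤ y) (hy' : y ≤ 3 / 2)
    (h : ¬ Good (cr N) δ y) : ∃ i ∈ range (N + 1), |y - (i : ℝ) / N| ≤ δ := by
  have hpi := Real.pi_gt_three
  by_contra hcon
  push Not at hcon
  apply h
  intro u hu1 hu2 hne
  constructor
  · rcases lt_trichotomy u y with h1 | h1 | h1
    · obtain ⟨i, hi, h2, h3⟩ := cr_jump hN h1 hne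
      have h4 := hcon i hi
      rw [abs_of_nonneg (by linarith)] at h4
      rw [abs_of_nonpos (by linarith)]
      linarith
    · exact absurd (by rw [h1]) hne
    · obtain ⟨i, hi, h2, h3⟩ := cr_jump hN h1 hne.symm
      have h4 := hcon i hi
      rw [abs_of_nonpos (by linarith)] at h4
      rw [abs_of_nonneg (by linarith)]
      linarith
  · rw [abs_le]
    constructor <;> linarith

lemma good_a {n : ℕ} (hn : 1 ≤ n) {δ x : ℝ} (hx : -Real.pi < x) (hx' : x ≤ Real.pi)
    (hδ : 0 < δ) (h : ¬ Good (ca n) δ x) : Bd n δ x := by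
  have hpi := Real.pi_pos
  have hn0 : (0 : ℝ) < n := by exact_mod_cast hn
  by_contra hb
  apply h
  unfold Bd at hb
  push Not at hb
  have hb0 : δ < x + Real.pi := by
    have h1 := hb 0 (by rw [mem_range]; omega)
    rw [Nat.cast_zero, mul_zero, zero_div, add_zero, lt_abs] at h1
    rcases h1 with h1 | h1 <;> linarith
  have hbn : δ < Real.pi - x := by
    have h1 := hb n (by rw [mem_range]; omega)
    have h8 : 2 * Real.pi * (n : ℝ) / n = 2 * Real.pi := by field_simp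
    rw [h8, lt_abs] at h1
    rcases h1 with h1 | h1 <;> linarith
  -- jumps
  have jump : ∀ u v : ℝ, -Real.pi ≤ u → u < v → v < Real.pi → ca n u ≠ ca n v →
      ∃ j ∈ range (n + 1), u < -Real.pi + 2 * Real.pi * j / n ∧
        -Real.pi + 2 * Real.pi * j / n ≤ v := by
    intro u v hu huv hv hne
    have h1 : (0 : ℝ) ≤ (u + Real.pi) * n / (2 * Real.pi) := by
      have : 0 ≤ u + Real.pi := by linarith
      positivity
    have h2 : (u + Real.pi) * n / (2 * Real.pi) < n := by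
      rw [div_lt_iff₀ (by positivity)]
      nlinarith
    have h5 : 0 ≤ ca n u := Int.floor_nonneg.2 h1
    have h6 : ca n u < n := by
      unfold ca
      rw [Int.floor_lt]
      exact_mod_cast h2
    have hc : (((ca n u).toNat : ℕ) : ℤ) = ca n u := Int.toNat_of_nonneg h5
    have hcR : (((ca n u).toNat : ℕ) : ℝ) = (ca n u : ℝ) := by exact_mod_cast hc
    refine ⟨(ca n u).toNat + 1, by rw [mem_range]; omega, ?_, ?_⟩
    · push_cast
      rw [hcR]
      have h7 : (u + Real.pi) * n / (2 * Real.pi) < (ca n u : ℝ) + 1 := Int.lt_floor_add_one _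
      rw [div_lt_iff₀ (by positivity)] at h7
      have h8 : u + Real.pi < 2 * Real.pi * ((ca n u : ℝ) + 1) / n := by
        rw [lt_div_iff₀ hn0]
        linarith
      linarith
    · push_cast
      rw [hcR]
      have h7 : ca n u + 1 ≤ ca n v := by
        have h8 : ca n u ≤ ca n v := by
          unfold ca
          apply Int.floor_le_floor
          have : u + Real.pi ≤ v + Real.pi := by linarith
          gcongr
        omega
      have h8 : (ca n u : ℝ) + 1 ≤ (ca n v : ℝ) := by exact_mod_cast h7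
      have h9 : (ca n v : ℝ) ≤ (v + Real.pi) * n / (2 * Real.pi) := Int.floor_le _
      have h10 := h8.trans h9
      rw [le_div_iff₀ (by positivity)] at h10
      have h11 : 2 * Real.pi * ((ca n u : ℝ) + 1) / n ≤ v + Real.pi := by
        rw [div_le_iff₀ hn0]
        linarith
      linarith
  intro u hu1 hu2 hne
  constructor
  · rcases lt_trichotomy u x with h1 | h1 | h1
    · obtain ⟨j, hj, h2, h3⟩ := jump u x hu1 h1 (by linarith) hne
      have h4 := hb j hj
      rw [abs_of_nonneg (by linarith)] at h4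
      rw [abs_of_nonpos (by linarith)]
      linarith
    · exact absurd (by rw [h1]) hne
    · obtain ⟨j, hj, h2, h3⟩ := jump x u hx.le h1 hu2 hne.symm
      have h4 := hb j hj
      rw [abs_of_nonpos (by linarith)] at h4
      rw [abs_of_nonneg (by linarith)]
      linarith
  · rw [abs_le]
    constructor <;> linarith

end Pool.Agent.N814.MS
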