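import Pool.Agent.N814.MS.Wgt

/-!
# Project MS (helper912), CELLS: the sums over the cells, for fixed parameters
-/

set_option autoImplicit false

namespace Pool.Agent.N814.MS

open Finset
open Pool.Agent.H376R2.MR (ch w FK)
open Pool.Agent.W78.GA
open Pool.Agent.W883.EC (ex ex_add norm_ex Bd exp_lip hD01)
open Pool.Agent.N912.MS (Gi chi nrm FB DP2 G2 aix lix)

lemma sum_blocks (g : ℕ → ℝ) (n m : ℕ) :
    ∑ i ∈ range n, ∑ r ∈ range m, g (i * m + r) = ∑ i ∈ range (n * m), g i := by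
  induction n with
  | zero => simp
  | succ n ih => rw [Finset.sum_range_succ, ih, Nat.succ_mul, Finset.sum_range_add]

lemma one_le_sum (c : ℤ) (n : ℕ) : ∑ j ∈ range n, (if c = (j : ℤ) then (1 : ℝ) else 0) ≤ 1 := by
  by_cases h : ∃ j ∈ range n, c = (j : ℤ)
  · obtain ⟨j, hj, hc⟩ := h
    rw [Finset.sum_eq_single_of_mem j hj]
    · rw [if_pos hc]
    · intro i _ hij
      rw [if_neg]
      intro h
      rw [hc] at h
      exact hij (by exact_mod_cast h.symm)
  · push Not at h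
    rw [Finset.sum_eq_zero (fun j hj => if_neg (h j hj))]
    norm_num

lemma cell_card {ι : Type*} (s : Finset ι) (p q : ι → ℤ) (n N : ℕ) :
    ∑ j ∈ range n, ∑ i ∈ range N,
      ((s.filter (fun z => p z = (j : ℤ) ∧ q z = (i : ℤ))).card : ℝ) ≤ s.card := by
  have h1 : ∀ j i : ℕ, ((s.filter (fun z => p z = (j : ℤ) ∧ q z = (i : ℤ))).card : ℝ) =
      ∑ z ∈ s, (if p z = (j : ℤ) then (1 : ℝ) else 0) * (if q z = (i : ℤ) then 1 else 0) := by
    intro j i
    rw [Finset.card_filter]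
    push_cast
    refine Finset.sum_congr rfl fun z _ => ?_
    by_cases h : p z = (j : ℤ) <;> by_cases h' : q z = (i : ℤ) <;> simp [h, h']
  simp only [h1]
  rw [Finset.sum_congr rfl fun j _ => Finset.sum_comm, Finset.sum_comm]
  refine (Finset.sum_le_sum (g := fun _ => (1 : ℝ)) fun z _ => ?_).trans (by simp)
  rw [← Finset.sum_mul_sum]
  exact mul_le_one₀ (one_le_sum _ _)
    (Finset.sum_nonneg fun i _ => by split_ifs <;> norm_num) (one_le_sum _ _)

lemma cr_spec {N : ℕ} {b : ℝ} {i : ℕ} (h : cr N b = (i : ℤ)) :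
    0 ≤ b ∧ b < 1 ∧ (i : ℝ) ≤ N * b ∧ (N : ℝ) * b < i + 1 := by
  unfold cr at h
  split_ifs at h with h1
  refine ⟨h1.1, h1.2, ?_⟩
  rw [Int.floor_eq_iff] at h
  exact_mod_cast h

lemma cr_eq {N : ℕ} {b : ℝ} {i : ℕ} (h0 : 0 ≤ b) (h1 : b < 1) (h2 : (i : ℝ) ≤ N * b)
    (h3 : (N : ℝ) * b < i + 1) : cr N b = (i : ℤ) := by
  unfold cr
  rw [if_pos ⟨h0, h1⟩, Int.floor_eq_iff]
  push_cast
  exact ⟨h2, h3⟩

open scoped Classical in
lemma cell_split (f : Gi → ℝ) {X : ℝ} (hX : 0 < X) {n m : ℕ} (hn : 1 ≤ n) (hm : 1 ≤ m) (j : ℕ)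
    {i : ℕ} (hi : i < n) :
    ∑ z ∈ (ball 0 1 (Real.exp 1 * X)).filter
      (fun z => aix n z = (j : ℤ) ∧ lix n X z = (i : ℤ)), f z =
    ∑ r ∈ range m, ∑ z ∈ (sset X).filter
      (fun z => ca n (ang z) = (j : ℤ) ∧ cr (n * m) (bt X z) = ((i * m + r : ℕ) : ℤ)), f z := by
  have hn0 : (0 : ℝ) < n := by exact_mod_cast hn
  have hm0 : (0 : ℝ) < m := by exact_mod_cast hm
  have hin : (i : ℝ) + 1 ≤ n := by exact_mod_cast hi
  have key0 : ∀ z : Gi, lix n X z = (i : ℤ) ↔ (i : ℝ) ≤ n * bt X z ∧ (n : ℝ) * bt X z < i + 1 := by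
    intro z
    unfold lix bt
    rw [Int.floor_eq_iff]
    push_cast
    exact Iff.rfl
  have key : ∀ z : Gi, lix n X z = (i : ℤ) → 0 ≤ bt X z ∧ bt X z < 1 := by
    intro z h
    rw [key0] at h
    have hi0 : (0 : ℝ) ≤ i := by positivity
    constructor
    · by_contra hcon
      push Not at hcon
      nlinarith [h.1]
    · by_contra hcon
      push Not at hcon
      nlinarith [h.2]
  have hset : (ball 0 1 (Real.exp 1 * X)).filter
      (fun z => aix n z = (j : ℤ) ∧ lix n X z = (i : ℤ)) =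
      (sset X).filter (fun z => aix n z = (j : ℤ) ∧ lix n X z = (i : ℤ)) := by
    ext z
    rw [mem_filter, mem_filter, mem_ball hD01]
    constructor
    · rintro ⟨⟨h1, h2⟩, h3, h4⟩
      have hz0 := (one_le_nm hD01).1 h1
      obtain ⟨h5, h6⟩ := key z h4
      exact ⟨mem_sset hX hz0 (by linarith) (by linarith), h3, h4⟩
    · rintro ⟨h1, h3, h4⟩
      obtain ⟨hz0, _, _⟩ := sset_spec hX h1
      obtain ⟨h5, h6⟩ := key z h4
      refine ⟨⟨(one_le_nm hD01).2 hz0, ?_⟩, h3, h4⟩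
      rw [nm_eq_bt hX hz0, mul_comm]
      exact mul_le_mul_of_nonneg_right (Real.exp_le_exp.2 h6.le) hX.le
  rw [hset]
  simp only [Finset.sum_filter]
  rw [Finset.sum_comm]
  refine Finset.sum_congr rfl fun z hz => ?_
  have haix : aix n z = ca n (ang z) := rfl
  rw [haix]
  by_cases hj : ca n (ang z) = (j : ℤ)
  · by_cases hl : lix n X z = (i : ℤ)
    · rw [if_pos ⟨hj, hl⟩]
      obtain ⟨h5, h6⟩ := key z hl
      rw [key0] at hl
      obtain ⟨h7, h8⟩ := hl
      obtain ⟨b, hb⟩ : ∃ b, b = bt X z := ⟨_, rfl⟩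
      rw [← hb] at h5 h6 h7 h8 ⊢
      have hb0 : (0 : ℝ) ≤ (n : ℝ) * m * b := by positivity
      obtain ⟨k, hk⟩ : ∃ k, k = ⌊(n : ℝ) * m * b⌋₊ := ⟨_, rfl⟩
      have hk1 : (k : ℝ) ≤ (n : ℝ) * m * b := by rw [hk]; exact Nat.floor_le hb0
      have hk2 : (n : ℝ) * m * b < k + 1 := by rw [hk]; exact Nat.lt_floor_add_one _
      have h9 : i * m ≤ k := by
        rw [hk]
        apply Nat.le_floor
        push_cast
        nlinarith
      have h10 : k < (i + 1) * m := by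
        have : (k : ℝ) < ((i : ℝ) + 1) * m := by nlinarith
        exact_mod_cast this
      have hcr : cr (n * m) b = (k : ℤ) := by
        apply cr_eq h5 h6
        · push_cast
          exact hk1
        · push_cast
          exact hk2
      have h11 : k - i * m ∈ range m := by
        rw [mem_range]
        have : (i + 1) * m = i * m + m := by ring
        omega
      rw [Finset.sum_eq_single_of_mem _ h11]
      · rw [if_pos]
        refine ⟨hj, ?_⟩
        rw [hcr]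
        congr 1
        omega
      · intro r _ hr
        rw [if_neg]
        rintro ⟨_, h⟩
        rw [hcr] at h
        have h12 : k = i * m + r := by exact_mod_cast h
        omega
    · rw [if_neg (fun h => hl h.2)]
      symm
      apply Finset.sum_eq_zero
      intro r hr
      rw [if_neg]
      rintro ⟨_, h⟩
      apply hl
      rw [key0]
      obtain ⟨_, _, h3, h4⟩ := cr_spec h
      rw [mem_range] at hr
      have hr1 : (r : ℝ) + 1 ≤ m := by exact_mod_cast hr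
      have hr0 : (0 : ℝ) ≤ r := by positivity
      push_cast at h3 h4
      constructor
      · by_contra hcon
        push Not at hcon
        nlinarith
      · by_contra hcon
        push Not at hcon
        nlinarith
  · rw [if_neg (fun h => hj h.1)]
    symm
    exact Finset.sum_eq_zero fun r _ => if_neg (fun h => hj h.1)

open scoped Classical in
lemma cell_wt {f : Gi → ℝ} (hf : ∀ z, |f z| ≤ 1) {X : ℝ} (hX : 0 < X) {N : ℕ} (hN : 1 ≤ N)
    (n j i : ℕ) (hi : i < N) :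
    |∑ z ∈ (sset X).filter (fun z => ca n (ang z) = (j : ℤ) ∧ cr N (bt X z) = (i : ℤ)), f z| ≤
      11 * |∑ z ∈ (sset X).filter
        (fun z => ca n (ang z) = (j : ℤ) ∧ cr N (bt X z) = (i : ℤ)), aw f X z| +
      33 / N * ((sset X).filter
        (fun z => ca n (ang z) = (j : ℤ) ∧ cr N (bt X z) = (i : ℤ))).card := by
  have hN0 : (0 : ℝ) < N := by exact_mod_cast hN
  obtain ⟨S, hS⟩ : ∃ S, S = (sset X).filter
    (fun z => ca n (ang z) = (j : ℤ) ∧ cr N (bt X z) = (i : ℤ)) := ⟨_, rfl⟩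
  rw [← hS]
  have hi0 : (0 : ℝ) ≤ (i : ℝ) / N := by positivity
  have hi1 : (i : ℝ) / N ≤ 1 := by
    rw [div_le_one hN0]
    exact_mod_cast hi.le
  have h1 : ∑ z ∈ S, f z = gam ((i : ℝ) / N) * ∑ z ∈ S, aw f X z +
      ∑ z ∈ S, (gam (bt X z) - gam ((i : ℝ) / N)) * aw f X z := by
    rw [Finset.mul_sum, ← Finset.sum_add_distrib]
    refine Finset.sum_congr rfl fun z hz => ?_
    rw [hS, mem_filter] at hz
    obtain ⟨h2, h3, _, _⟩ := cr_spec hz.2.2
    rw [aw_gam f hX hz.1 h2 h3.le]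
    ring
  have h2 : |∑ z ∈ S, (gam (bt X z) - gam ((i : ℝ) / N)) * aw f X z| ≤ 33 / N * (S.card : ℝ) := by
    refine (Finset.abs_sum_le_sum_abs _ _).trans ?_
    have h3 : ∀ z ∈ S, |(gam (bt X z) - gam ((i : ℝ) / N)) * aw f X z| ≤ 33 / N := by
      intro z hz
      rw [hS, mem_filter] at hz
      obtain ⟨h4, h5, h6, h7⟩ := cr_spec hz.2.2
      have h8 := gam_lip h4 h5.le hi0 hi1
      have h9 : |bt X z - (i : ℝ) / N| ≤ 1 / N := by
        have h10 : (i : ℝ) / N ≤ bt X z := by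
          rw [div_le_iff₀ hN0]
          linarith
        have h11 : bt X z ≤ (i : ℝ) / N + 1 / N := by
          rw [← add_div, le_div_iff₀ hN0]
          linarith
        rw [abs_of_nonneg (by linarith)]
        linarith
      have h12 := aw_le hf hX hz.1
      rw [abs_mul]
      calc |gam (bt X z) - gam ((i : ℝ) / N)| * |aw f X z|
          ≤ (33 * (1 / N)) * 1 := by
            refine mul_le_mul (h8.trans ?_) h12 (abs_nonneg _) (by positivity)
            exact mul_le_mul_of_nonneg_left h9 (by norm_num)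
        _ = 33 / N := by ring
    refine (Finset.sum_le_sum h3).trans ?_
    rw [Finset.sum_const, nsmul_eq_mul]
    linarith
  rw [h1]
  refine (abs_add_le _ _).trans (add_le_add ?_ h2)
  rw [abs_mul]
  exact mul_le_mul_of_nonneg_right (gam_le hi0 hi1) (abs_nonneg _)

/-- the number of points of the support -/
lemma sset_sub (X : ℝ) (hX : 0 < X) : sset X ⊆ ball 0 1 (5 * X) := by
  intro z hz
  obtain ⟨hz0, h1, h2⟩ := sset_spec hX hz
  rw [mem_ball hD01]
  refine ⟨(one_le_nm hD01).2 hz0, ?_⟩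
  rw [nm_eq_bt hX hz0, mul_comm]
  refine mul_le_mul_of_nonneg_right ?_ hX.le
  have h3 : Real.exp (bt X z) ≤ Real.exp (3 / 2) := Real.exp_le_exp.2 h2.le
  have h4 : Real.exp (3 / 2) = Real.exp 1 * Real.exp (1 / 2) := by
    rw [← Real.exp_add]
    congr 1
    norm_num
  have h5 := exp_half_le
  have h6 := exp_le28 (le_refl (1 : ℝ))
  have h7 := Real.exp_pos (1 : ℝ)
  have h8 := Real.exp_pos (1 / 2 : ℝ)
  rw [h4] at h3
  nlinarith

/-- `b` is close to a multiple of `1/N` in `[0,1]` -/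
def NearR (N : ℕ) (δ b : ℝ) : Prop := ∃ i ∈ range (N + 1), |b - (i : ℝ) / N| ≤ δ

open scoped Classical in
/-- points with radius near the boundary of a ring -/
lemma shell : ∃ K : ℝ, 0 < K ∧ ∀ (X δ : ℝ) (N : ℕ), 3 ≤ X → 1 ≤ N → 0 < δ → δ ≤ 1 / 2 →
    (((sset X).filter (fun z => NearR N δ (bt X z))).card : ℝ) ≤
      ((N : ℝ) + 1) * (K * (δ * X + Real.sqrt X)) := by
  obtain ⟨κ, C, hκ, hC, _, hsh⟩ := ball_count
  refine ⟨15 * κ + 6 * C, by positivity, ?_⟩
  intro X δ N hX hN hδ hδ'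
  have hX0 : 0 < X := by linarith
  have hN0 : (0 : ℝ) < N := by exact_mod_cast hN
  have hsub : ((sset X).filter (fun z => NearR N δ (bt X z))) ⊆
      (range (N + 1)).biUnion (fun i => (ball 0 1 (X * Real.exp ((i : ℝ) / N + δ))).filter
        (fun z => X * Real.exp ((i : ℝ) / N - 2 * δ) < (nm z : ℝ))) := by
    intro z hz
    rw [mem_filter] at hz
    obtain ⟨hz1, i, hi, hz2⟩ := hz
    obtain ⟨hz0, _, _⟩ := sset_spec hX0 hz1
    rw [mem_biUnion]
    refine ⟨i, hi, ?_⟩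
    rw [mem_filter, mem_ball hD01, nm_eq_bt hX0 hz0]
    rw [abs_le] at hz2
    refine ⟨⟨(one_le_nm hD01).2 hz0, ?_⟩, ?_⟩
    · exact mul_le_mul_of_nonneg_left (Real.exp_le_exp.2 (by linarith [hz2.2])) hX0.le
    · exact mul_lt_mul_of_pos_left (Real.exp_lt_exp.2 (by linarith [hz2.1])) hX0
  have h1 := (Finset.card_le_card hsub).trans Finset.card_biUnion_le
  have h2 : (((sset X).filter
      (fun z => NearR N δ (bt X z))).card : ℝ) ≤
      ∑ i ∈ range (N + 1), (((ball 0 1 (X * Real.exp ((i : ℝ) / N + δ))).filter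
        (fun z => X * Real.exp ((i : ℝ) / N - 2 * δ) < (nm z : ℝ))).card : ℝ) := by
    exact_mod_cast h1
  refine h2.trans ?_
  have h3 : ∀ i ∈ range (N + 1), (((ball 0 1 (X * Real.exp ((i : ℝ) / N + δ))).filter
        (fun z => X * Real.exp ((i : ℝ) / N - 2 * δ) < (nm z : ℝ))).card : ℝ) ≤
      (15 * κ + 6 * C) * (δ * X + Real.sqrt X) := by
    intro i hi
    rw [mem_range] at hi
    obtain ⟨t, ht⟩ : ∃ t, t = (i : ℝ) / N := ⟨_, rfl⟩
    have ht0 : 0 ≤ t := by rw [ht]; positivity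
    have ht1 : t ≤ 1 := by
      rw [ht, div_le_one hN0]
      exact_mod_cast (by omega : i ≤ N)
    rw [← ht]
    have hA : 1 ≤ X * Real.exp (t - 2 * δ) := by
      have h4 : Real.exp (-1) ≤ Real.exp (t - 2 * δ) := Real.exp_le_exp.2 (by linarith)
      have h5 : X * Real.exp (-1) ≤ X * Real.exp (t - 2 * δ) :=
        mul_le_mul_of_nonneg_left h4 hX0.le
      have h6 : 1 ≤ X * Real.exp (-1) := by
        rw [Real.exp_neg, ← div_eq_mul_inv, le_div_iff₀ (Real.exp_pos 1), one_mul]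
        linarith [exp_le28 (le_refl (1 : ℝ))]
      linarith
    have hAB : X * Real.exp (t - 2 * δ) ≤ X * Real.exp (t + δ) :=
      mul_le_mul_of_nonneg_left (Real.exp_le_exp.2 (by linarith)) hX0.le
    refine (hsh _ _ hA hAB).trans ?_
    have hB : Real.exp (t + δ) ≤ 5 := by
      have h3 : Real.exp (t + δ) ≤ Real.exp (3 / 2) := Real.exp_le_exp.2 (by linarith)
      have h4 : Real.exp (3 / 2) = Real.exp 1 * Real.exp (1 / 2) := by
        rw [← Real.exp_add]
        congr 1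
        norm_num
      have h5 := exp_half_le
      have h6 := exp_le28 (le_refl (1 : ℝ))
      have h7 := Real.exp_pos (1 : ℝ)
      have h8 := Real.exp_pos (1 / 2 : ℝ)
      rw [h4] at h3
      nlinarith
    have hdiff : X * Real.exp (t + δ) - X * Real.exp (t - 2 * δ) ≤ 15 * (δ * X) := by
      have h4 : Real.exp (t - 2 * δ) = Real.exp (t + δ) * Real.exp (-(3 * δ)) := by
        rw [← Real.exp_add]
        congr 1
        ring
      have h5 : 1 - 3 * δ ≤ Real.exp (-(3 * δ)) := by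
        have := Real.add_one_le_exp (-(3 * δ))
        linarith
      have h6 := Real.exp_pos (t + δ)
      rw [h4]
      have h7 : Real.exp (t + δ) * (1 - 3 * δ) ≤ Real.exp (t + δ) * Real.exp (-(3 * δ)) :=
        mul_le_mul_of_nonneg_left h5 h6.le
      have h8 : X * (Real.exp (t + δ) * (1 - 3 * δ)) ≤
          X * (Real.exp (t + δ) * Real.exp (-(3 * δ))) := mul_le_mul_of_nonneg_left h7 hX0.le
      have h9 : δ * X * Real.exp (t + δ) ≤ δ * X * 5 :=
        mul_le_mul_of_nonneg_left hB (by positivity)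
      nlinarith
    have hsq : Real.sqrt (X * Real.exp (t + δ)) ≤ 3 * Real.sqrt X := by
      have h4 : X * Real.exp (t + δ) ≤ 9 * X := by nlinarith
      refine (Real.sqrt_le_sqrt h4).trans (le_of_eq ?_)
      rw [Real.sqrt_mul (by norm_num), show (9 : ℝ) = 3 ^ 2 by norm_num,
        Real.sqrt_sq (by norm_num)]
    have h4 := mul_le_mul_of_nonneg_left hdiff hκ.le
    have h5 := mul_le_mul_of_nonneg_left hsq (by positivity : 0 ≤ 2 * C)
    have h6 : 0 ≤ δ * X := by positivity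
    have h7 := Real.sqrt_nonneg X
    have h8 : 0 ≤ κ * Real.sqrt X := by positivity
    have h9 : 0 ≤ C * (δ * X) := by positivity
    nlinarith
  refine (Finset.sum_le_sum h3).trans ?_
  rw [Finset.sum_const, card_range, nsmul_eq_mul]
  push_cast
  exact le_rfl

open scoped Classical in
theorem cells_fix : ∃ C : ℝ, 0 < C ∧ ∀ (f : Gi → ℝ), (∀ z, |f z| ≤ 1) →
    ∀ (X : ℝ) (n m M : ℕ) (δ : ℝ), 3 ≤ X → 1 ≤ n → 1 ≤ m → 1 ≤ M → 0 < δ → δ ≤ 1 / 2 →
    ∑ j ∈ range (n + 1), ∑ i ∈ range n, |∑ z ∈ (ball 0 1 (Real.exp 1 * X)).filter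
      (fun z => aix n z = (j : ℤ) ∧ lix n X z = (i : ℤ)), f z| ≤
    11 * (X / 2 * Real.sqrt (∑ κ ∈ FB (4 * M ^ 2 + 1), ‖G2 f (Real.exp (1 / 2) * X) κ‖ ^ 2)) +
    C * (n * m * (δ * X + Real.sqrt X) + X / (M * δ) ^ 2 + X / m) := by
  obtain ⟨κ, C, hκ, hC, hct, _⟩ := ball_count
  obtain ⟨C₂, hC₂, hbad⟩ := bad_ball
  obtain ⟨K, hK, hsh⟩ := shell
  refine ⟨44 * (10 * C₂ + K) + 5060 * (κ + C) + 165 * (κ + C) + 1, by positivity, ?_⟩
  intro f hf X n m M δ hX hn hm hM hδ hδ'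
  have hX0 : 0 < X := by linarith
  have hn0 : (0 : ℝ) < n := by exact_mod_cast hn
  have hm0 : (0 : ℝ) < m := by exact_mod_cast hm
  have hn1 : (1 : ℝ) ≤ n := by exact_mod_cast hn
  have hm1 : (1 : ℝ) ≤ m := by exact_mod_cast hm
  have hM0 : (0 : ℝ) < M := by exact_mod_cast hM
  have hpi := Real.pi_gt_three
  obtain ⟨N, hN⟩ : ∃ N, N = n * m := ⟨_, rfl⟩
  have hN1 : 1 ≤ N := by rw [hN]; exact Nat.mul_pos hn hm
  have hN0 : (0 : ℝ) < N := by exact_mod_cast hN1
  have hNc : (N : ℝ) = n * m := by rw [hN]; push_cast; ring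
  -- the cells
  obtain ⟨F, hF⟩ : ∃ F : ℕ → ℕ → ℝ, F = fun j i : ℕ => |∑ z ∈ (sset X).filter
    (fun z => ca n (ang z) = (j : ℤ) ∧ cr N (bt X z) = (i : ℤ)), f z| := ⟨_, rfl⟩
  obtain ⟨A, hA⟩ : ∃ A : ℕ → ℕ → ℝ, A = fun j i : ℕ => |∑ z ∈ (sset X).filter
    (fun z => ca n (ang z) = (j : ℤ) ∧ cr N (bt X z) = (i : ℤ)), aw f X z| := ⟨_, rfl⟩
  obtain ⟨c, hc⟩ : ∃ c : ℕ → ℕ → ℝ, c = fun j i : ℕ => (((sset X).filter
    (fun z => ca n (ang z) = (j : ℤ) ∧ cr N (bt X z) = (i : ℤ))).card : ℝ) := ⟨_, rfl⟩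
  have h1 : ∑ j ∈ range (n + 1), ∑ i ∈ range n, |∑ z ∈ (ball 0 1 (Real.exp 1 * X)).filter
      (fun z => aix n z = (j : ℤ) ∧ lix n X z = (i : ℤ)), f z| ≤
      ∑ j ∈ range (n + 1), ∑ i ∈ range N, F j i := by
    refine Finset.sum_le_sum fun j _ => ?_
    rw [hN, ← sum_blocks]
    refine Finset.sum_le_sum fun i hi => ?_
    rw [mem_range] at hi
    rw [cell_split f hX0 hn hm j hi, hF, hN]
    exact Finset.abs_sum_le_sum_abs _ _
  have h2 : ∑ j ∈ range (n + 1), ∑ i ∈ range N, F j i ≤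
      11 * ∑ j ∈ range (n + 1), ∑ i ∈ range N, A j i + 33 / N * ((sset X).card : ℝ) := by
    have h3 : ∑ j ∈ range (n + 1), ∑ i ∈ range N, F j i ≤
        ∑ j ∈ range (n + 1), ∑ i ∈ range N, (11 * A j i + 33 / N * c j i) := by
      refine Finset.sum_le_sum fun j _ => Finset.sum_le_sum fun i hi => ?_
      rw [mem_range] at hi
      rw [hF, hA, hc]
      exact cell_wt hf hX0 hN1 n j i hi
    refine h3.trans ?_
    have h4 : ∑ j ∈ range (n + 1), ∑ i ∈ range N, (11 * A j i + 33 / N * c j i) =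
        11 * ∑ j ∈ range (n + 1), ∑ i ∈ range N, A j i +
        33 / N * ∑ j ∈ range (n + 1), ∑ i ∈ range N, c j i := by
      simp only [Finset.sum_add_distrib, Finset.mul_sum]
    rw [h4]
    have h5 : ∑ j ∈ range (n + 1), ∑ i ∈ range N, c j i ≤ ((sset X).card : ℝ) := by
      rw [hc]
      have := cell_card (sset X) (fun z => ca n (ang z)) (fun z => cr N (bt X z)) (n + 1) N
      convert this
    have h6 : (0 : ℝ) ≤ 33 / N := by positivity
    have h7 := mul_le_mul_of_nonneg_left h5 h6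
    linarith
  have h3 : ∑ j ∈ range (n + 1), ∑ i ∈ range N, A j i ≤
      X / 2 * Real.sqrt (∑ κ ∈ FB (4 * M ^ 2 + 1), ‖G2 f (Real.exp (1 / 2) * X) κ‖ ^ 2) +
      2 * ((((sset X).filter (fun z => ¬ Good (ca n) δ (ang z))).card : ℝ) +
        ((sset X).filter (fun z => ¬ Good (cr N) δ (bt X z))).card) +
      4 * ((sset X).card : ℝ) * (23 / (M * δ) ^ 2) := by
    have h4 := cell_main (sset X) (fun z => ang z) (fun z => bt X z) (fun z => aw f X z)
      (fun z hz => aw_le hf hX0 hz) (ca n) (cr N) ((range (n + 1)).image (fun j : ℕ => (j : ℤ)))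
      ((range N).image (fun i : ℕ => (i : ℤ))) M hM δ hδ
    have hinj : ∀ T : Finset ℕ, Set.InjOn (fun j : ℕ => (j : ℤ)) T := by
      intro T a _ b _ hab
      exact Nat.cast_injective (R := ℤ) hab
    rw [Finset.sum_image (hinj _)] at h4
    simp only [Finset.sum_image (hinj _)] at h4
    have h5 : Real.sqrt (∑ k ∈ FK (2 * M + 1), ∑ l ∈ FK (2 * M + 1),
        ‖∑ z ∈ sset X, (aw f X z : ℂ) * (ex (k * ang z) * ex (l * bt X z))‖ ^ 2) ≤
        X / 2 * Real.sqrt (∑ κ ∈ FB (4 * M ^ 2 + 1), ‖G2 f (Real.exp (1 / 2) * X) κ‖ ^ 2) := by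
      have h6 : ∑ k ∈ FK (2 * M + 1), ∑ l ∈ FK (2 * M + 1),
          ‖∑ z ∈ sset X, (aw f X z : ℂ) * (ex (k * ang z) * ex (l * bt X z))‖ ^ 2 =
          (X / 2) ^ 2 * ∑ k ∈ FK (2 * M + 1), ∑ l ∈ FK (2 * M + 1),
            ‖G2 f (Real.exp (1 / 2) * X) (k, -l)‖ ^ 2 := by
        rw [Finset.mul_sum]
        refine Finset.sum_congr rfl fun k _ => ?_
        rw [Finset.mul_sum]
        refine Finset.sum_congr rfl fun l _ => ?_
        rw [four f hX0, mul_pow]
      rw [h6, Real.sqrt_mul (by positivity), Real.sqrt_sq (by positivity)]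
      refine mul_le_mul_of_nonneg_left (Real.sqrt_le_sqrt ?_) (by positivity)
      exact low2 (fun κ => ‖G2 f (Real.exp (1 / 2) * X) κ‖ ^ 2) (fun _ => by positivity) M
    rw [hA]
    refine h4.trans ?_
    linarith
  have h4 : ((sset X).card : ℝ) ≤ 5 * (κ + C) * X := by
    have h5 := Finset.card_le_card (sset_sub X hX0)
    have h6 : ((sset X).card : ℝ) ≤ ((ball 0 1 (5 * X)).card : ℝ) := by exact_mod_cast h5
    have h7 := hct (5 * X) (by linarith)
    linarith
  have h5 : (((sset X).filter (fun z => ¬ Good (ca n) δ (ang z))).card : ℝ) ≤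
      2 * (n * m) * (10 * C₂ * (δ * X + Real.sqrt X)) := by
    have h6 : ((sset X).filter (fun z => ¬ Good (ca n) δ (ang z))) ⊆
        (ball 0 1 (5 * X)).filter (fun z => Bd n δ (ang z)) := by
      intro z hz
      rw [mem_filter] at hz ⊢
      refine ⟨sset_sub X hX0 hz.1, ?_⟩
      exact good_a hn (Complex.neg_pi_lt_arg _) (Complex.arg_le_pi _) hδ hz.2
    have h7 : (((sset X).filter (fun z => ¬ Good (ca n) δ (ang z))).card : ℝ) ≤
        (((ball 0 1 (5 * X)).filter (fun z => Bd n δ (ang z))).card : ℝ) := by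
      exact_mod_cast Finset.card_le_card h6
    have h8 := hbad (5 * X) δ n (by linarith) hδ.le (by linarith)
    have h9 : Real.sqrt (5 * X) ≤ 3 * Real.sqrt X := by
      have h10 : 5 * X ≤ 9 * X := by linarith
      refine (Real.sqrt_le_sqrt h10).trans (le_of_eq ?_)
      rw [Real.sqrt_mul (by norm_num), show (9 : ℝ) = 3 ^ 2 by norm_num,
        Real.sqrt_sq (by norm_num)]
    have h10 := Real.sqrt_nonneg X
    have h11 : C₂ * (2 * (5 * X) * δ + Real.sqrt (5 * X)) ≤ 10 * C₂ * (δ * X + Real.sqrt X) := by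
      have h12 : 2 * (5 * X) * δ + Real.sqrt (5 * X) ≤ 10 * (δ * X + Real.sqrt X) := by linarith
      have h13 := mul_le_mul_of_nonneg_left h12 hC₂.le
      linarith
    have h12 : (n : ℝ) + 1 ≤ 2 * (n * m) := by nlinarith
    have h13 : 0 ≤ C₂ * (2 * (5 * X) * δ + Real.sqrt (5 * X)) := by positivity
    have h14 : 0 ≤ 2 * ((n : ℝ) * m) := by positivity
    exact h7.trans (h8.trans (mul_le_mul h12 h11 h13 h14))
  have h6 : (((sset X).filter (fun z => ¬ Good (cr N) δ (bt X z))).card : ℝ) ≤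
      2 * (n * m) * (K * (δ * X + Real.sqrt X)) := by
    have h7 : ((sset X).filter (fun z => ¬ Good (cr N) δ (bt X z))) ⊆
        (sset X).filter (fun z => NearR N δ (bt X z)) := by
      intro z hz
      rw [mem_filter] at hz ⊢
      refine ⟨hz.1, ?_⟩
      obtain ⟨_, h8, h9⟩ := sset_spec hX0 hz.1
      exact good_r hN1 (by linarith) h8.le h9.le hz.2
    have h8 : (((sset X).filter (fun z => ¬ Good (cr N) δ (bt X z))).card : ℝ) ≤
        (((sset X).filter (fun z => NearR N δ (bt X z))).card : ℝ) := by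
      exact_mod_cast Finset.card_le_card h7
    have h9 := hsh X δ N hX hN1 hδ hδ'
    have h10 := Real.sqrt_nonneg X
    have h11 : (N : ℝ) + 1 ≤ 2 * (n * m) := by
      rw [hNc]
      nlinarith
    have h12 : 0 ≤ K * (δ * X + Real.sqrt X) := by positivity
    exact h8.trans (h9.trans (mul_le_mul_of_nonneg_right h11 h12))
  -- conclusion
  obtain ⟨R, hR⟩ : ∃ R, R = X / 2 *
    Real.sqrt (∑ κ ∈ FB (4 * M ^ 2 + 1), ‖G2 f (Real.exp (1 / 2) * X) κ‖ ^ 2) := ⟨_, rfl⟩
  rw [← hR] at h3 ⊢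
  have hsX := Real.sqrt_nonneg X
  obtain ⟨U, hU⟩ : ∃ U, U = (n : ℝ) * m * (δ * X + Real.sqrt X) := ⟨_, rfl⟩
  obtain ⟨V, hV⟩ : ∃ V, V = X / (M * δ) ^ 2 := ⟨_, rfl⟩
  obtain ⟨W, hW⟩ : ∃ W, W = X / (m : ℝ) := ⟨_, rfl⟩
  have hU0 : 0 ≤ U := by rw [hU]; positivity
  have hV0 : 0 ≤ V := by rw [hV]; positivity
  have hW0 : 0 ≤ W := by rw [hW]; positivity
  rw [← hU, ← hV, ← hW]
  have h7 : 4 * ((sset X).card : ℝ) * (23 / (M * δ) ^ 2) ≤ 460 * (κ + C) * V := by
    have h8 : 4 * ((sset X).card : ℝ) * (23 / (M * δ) ^ 2) ≤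
        4 * (5 * (κ + C) * X) * (23 / (M * δ) ^ 2) :=
      mul_le_mul_of_nonneg_right (by linarith) (by positivity)
    refine h8.trans (le_of_eq ?_)
    rw [hV]
    ring
  have h8 : 33 / (N : ℝ) * ((sset X).card : ℝ) ≤ 165 * (κ + C) * W := by
    have h9 : (33 : ℝ) / N ≤ 33 / m := by
      apply div_le_div_of_nonneg_left (by norm_num) hm0
      rw [hNc]
      nlinarith
    have h10 : 33 / (N : ℝ) * ((sset X).card : ℝ) ≤ 33 / m * (5 * (κ + C) * X) :=
      mul_le_mul h9 h4 (by positivity) (by positivity)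
    refine h10.trans (le_of_eq ?_)
    rw [hW]
    ring
  have h9 : 2 * ((((sset X).filter (fun z => ¬ Good (ca n) δ (ang z))).card : ℝ) +
        ((sset X).filter (fun z => ¬ Good (cr N) δ (bt X z))).card) ≤ 4 * (10 * C₂ + K) * U := by
    rw [hU]
    linarith
  have h10 : 11 * (4 * (10 * C₂ + K) * U) = 44 * (10 * C₂ + K) * U := by ring
  have e1 : 0 ≤ (44 * (10 * C₂ + K)) * V := by positivity
  have e2 : 0 ≤ (44 * (10 * C₂ + K)) * W := by positivity
  have e3 : 0 ≤ (κ + C) * U := by positivity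
  have e4 : 0 ≤ (κ + C) * V := by positivity
  have e5 : 0 ≤ (κ + C) * W := by positivity
  have h11 : (44 * (10 * C₂ + K) + 5060 * (κ + C) + 165 * (κ + C) + 1) * (U + V + W) =
    44 * (10 * C₂ + K) * U + 44 * (10 * C₂ + K) * V + 44 * (10 * C₂ + K) * W +
    5225 * ((κ + C) * U) + 5225 * ((κ + C) * V) + 5225 * ((κ + C) * W) + U + V + W := by ring
  rw [h11]
  linarith

end Pool.Agent.N814.MS
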