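import Pool.Agent.N814.MS.Count

/-!
# Project MS (helper912), CELLS: the weights and the frequencies
-/

set_option autoImplicit false

namespace Pool.Agent.N814.MS

open Finset
open Pool.Agent.H376R2.MR (ch w FK)
open Pool.Agent.W78.GA
open Pool.Agent.W883.EC (ex ex_add norm_ex Bd exp_lip hD01)
open Pool.Agent.N912.MS (Gi chi nrm FB DP2 G2 aix lix)

/-- `log (nm z / X)` -/
noncomputable def bt (X : ℝ) (z : Gi) : ℝ := Real.log (nm z) - Real.log X

/-- the weight -/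
noncomputable def gam (b : ℝ) : ℝ := 2 * Real.exp b / (1 - |b - 1 / 2|)

lemma gden {b : ℝ} (h0 : 0 ≤ b) (h1 : b ≤ 1) : 1 / 2 ≤ 1 - |b - 1 / 2| := by
  have : |b - 1 / 2| ≤ 1 / 2 := by
    rw [abs_le]
    constructor <;> linarith
  linarith

lemma exp_le28 {b : ℝ} (h1 : b ≤ 1) : Real.exp b ≤ 2.72 := by
  have h2 := Real.exp_one_lt_d9
  have h3 : Real.exp b ≤ Real.exp 1 := Real.exp_le_exp.2 h1
  linarith

lemma gam_le {b : ℝ} (h0 : 0 ≤ b) (h1 : b ≤ 1) : |gam b| ≤ 11 := by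
  have h2 := gden h0 h1
  have h3 := exp_le28 h1
  have h4 := Real.exp_pos b
  unfold gam
  rw [abs_of_nonneg (div_nonneg (by positivity) (by linarith)), div_le_iff₀ (by linarith)]
  linarith

lemma exp_lip1 {b b' : ℝ} (h1 : b ≤ 1) (h1' : b' ≤ 1) :
    |Real.exp b - Real.exp b'| ≤ 2.72 * |b - b'| := by
  have h2 := exp_lip (x := b - 1) (y := b' - 1) (by linarith) (by linarith)
  have h3 : Real.exp b - Real.exp b' = Real.exp 1 * (Real.exp (b - 1) - Real.exp (b' - 1)) := by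
    rw [mul_sub, ← Real.exp_add, ← Real.exp_add]
    congr 2 <;> ring
  have h4 : b - 1 - (b' - 1) = b - b' := by ring
  rw [h4] at h2
  rw [h3, abs_mul, abs_of_pos (Real.exp_pos 1)]
  exact mul_le_mul (exp_le28 le_rfl) h2 (abs_nonneg _) (by norm_num)

lemma gam_lip {b b' : ℝ} (h0 : 0 ≤ b) (h1 : b ≤ 1) (h0' : 0 ≤ b') (h1' : b' ≤ 1) :
    |gam b - gam b'| ≤ 33 * |b - b'| := by
  have h2 := gden h0 h1
  have h2' := gden h0' h1'
  obtain ⟨p, hp⟩ : ∃ p, p = 1 - |b - 1 / 2| := ⟨_, rfl⟩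
  obtain ⟨p', hp'⟩ : ∃ p', p' = 1 - |b' - 1 / 2| := ⟨_, rfl⟩
  rw [← hp] at h2
  rw [← hp'] at h2'
  have hp0 : 0 < p := by linarith
  have hp0' : 0 < p' := by linarith
  have hpp : |p' - p| ≤ |b - b'| := by
    rw [hp, hp']
    have h3 : 1 - |b' - 1 / 2| - (1 - |b - 1 / 2|) = |b - 1 / 2| - |b' - 1 / 2| := by ring
    rw [h3]
    refine (abs_abs_sub_abs_le _ _).trans (le_of_eq ?_)
    congr 1
    ring
  have e : gam b - gam b' = 2 * (Real.exp b - Real.exp b') / p +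
      2 * Real.exp b' * (p' - p) / (p * p') := by
    unfold gam
    rw [← hp, ← hp']
    field_simp
    ring
  rw [e]
  have h3 := exp_lip1 h1 h1'
  have h4 := exp_le28 h1'
  have h5 := Real.exp_pos b'
  have hb := abs_nonneg (b - b')
  refine (abs_add_le _ _).trans ?_
  have h6 : |2 * (Real.exp b - Real.exp b') / p| ≤ 10.88 * |b - b'| := by
    rw [abs_div, abs_of_pos hp0, abs_mul, abs_of_pos (by norm_num : (0 : ℝ) < 2),
      div_le_iff₀ hp0]
    have h7 : 10.88 * |b - b'| * (1 / 2) ≤ 10.88 * |b - b'| * p :=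
      mul_le_mul_of_nonneg_left h2 (by positivity)
    linarith
  have h8 : |2 * Real.exp b' * (p' - p) / (p * p')| ≤ 21.76 * |b - b'| := by
    rw [abs_div, abs_of_pos (mul_pos hp0 hp0'), abs_mul, abs_of_pos (by positivity),
      div_le_iff₀ (mul_pos hp0 hp0')]
    have h9 : 2 * Real.exp b' * |p' - p| ≤ 5.44 * |b - b'| :=
      mul_le_mul (by linarith) hpp (abs_nonneg _) (by norm_num)
    have h10 : (1 / 4 : ℝ) ≤ p * p' := by nlinarith
    have h11 : 21.76 * |b - b'| * (1 / 4) ≤ 21.76 * |b - b'| * (p * p') :=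
      mul_le_mul_of_nonneg_left h10 (by positivity)
    linarith
  linarith

/-! ### the support -/

open scoped Classical in
/-- the support of the window -/
noncomputable def sset (X : ℝ) : Finset Gi :=
  (ball 0 1 (Real.exp 1 * (Real.exp (1 / 2) * X))).filter (fun z => bg (Real.exp (1 / 2) * X) z ≠ 0)

lemma bg_eq {X : ℝ} (hX : 0 < X) (z : Gi) :
    bg (Real.exp (1 / 2) * X) z = w (bt X z - 1 / 2) / nm z := by
  unfold bg bt
  rw [Real.log_mul (Real.exp_pos _).ne' hX.ne', Real.log_exp]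
  congr 2
  ring

lemma nm_eq_bt {X : ℝ} (hX : 0 < X) {z : Gi} (hz : z ≠ 0) : (nm z : ℝ) = X * Real.exp (bt X z) := by
  unfold bt
  have h := nm_posR hD01 hz
  rw [Real.exp_sub, Real.exp_log h, Real.exp_log hX]
  field_simp

lemma sset_spec {X : ℝ} (hX : 0 < X) {z : Gi} (hz : z ∈ sset X) :
    z ≠ 0 ∧ -(1 / 2) < bt X z ∧ bt X z < 3 / 2 := by
  unfold sset at hz
  rw [mem_filter, mem_ball hD01] at hz
  have hz0 : z ≠ 0 := (one_le_nm hD01).1 hz.1.1
  refine ⟨hz0, ?_⟩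
  have h1 := hz.2
  rw [bg_eq hX] at h1
  have h2 : w (bt X z - 1 / 2) ≠ 0 := fun h => h1 (by rw [h, zero_div])
  have h3 : |bt X z - 1 / 2| < 1 := by
    by_contra hcon
    push Not at hcon
    apply h2
    unfold w
    exact max_eq_left (by linarith)
  rw [abs_lt] at h3
  constructor <;> linarith [h3.1, h3.2]

lemma mem_sset {X : ℝ} (hX : 0 < X) {z : Gi} (hz : z ≠ 0) (h1 : -(1 / 2) < bt X z)
    (h2 : bt X z < 3 / 2) : z ∈ sset X := by
  unfold sset
  rw [mem_filter, mem_ball hD01]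
  have hn := nm_posR hD01 hz
  refine ⟨⟨(one_le_nm hD01).2 hz, ?_⟩, ?_⟩
  · rw [nm_eq_bt hX hz, ← mul_assoc, ← Real.exp_add, mul_comm]
    refine mul_le_mul_of_nonneg_right ?_ hX.le
    apply Real.exp_le_exp.2
    linarith
  · rw [bg_eq hX]
    have h3 : 0 < w (bt X z - 1 / 2) := by
      unfold w
      apply lt_max_of_lt_right
      have : |bt X z - 1 / 2| < 1 := by
        rw [abs_lt]
        constructor <;> linarith
      linarith
    positivity

/-- the coefficients -/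
noncomputable def aw (f : Gi → ℝ) (X : ℝ) (z : Gi) : ℝ := f z * (X * bg (Real.exp (1 / 2) * X) z / 2)

lemma exp_half_le : Real.exp (1 / 2) ≤ 1.65 := by
  have h1 := Real.exp_one_lt_d9
  have h2 : Real.exp (1 / 2) * Real.exp (1 / 2) = Real.exp 1 := by
    rw [← Real.exp_add]
    congr 1
    norm_num
  have h3 := Real.exp_pos (1 / 2 : ℝ)
  by_contra hcon
  push Not at hcon
  nlinarith

lemma aw_le {f : Gi → ℝ} (hf : ∀ z, |f z| ≤ 1) {X : ℝ} (hX : 0 < X) {z : Gi} (hz : z ∈ sset X) :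
    |aw f X z| ≤ 1 := by
  obtain ⟨hz0, h1, h2⟩ := sset_spec hX hz
  have hn := nm_posR hD01 hz0
  unfold aw
  rw [bg_eq hX, abs_mul]
  have hw0 : 0 ≤ w (bt X z - 1 / 2) := le_max_left _ _
  have hw1 : w (bt X z - 1 / 2) ≤ 1 := by
    unfold w
    apply max_le (by norm_num)
    linarith [abs_nonneg (bt X z - 1 / 2)]
  have h3 : X / (nm z : ℝ) ≤ 2 := by
    rw [nm_eq_bt hX hz0]
    have h4 : X / (X * Real.exp (bt X z)) = Real.exp (-bt X z) := by
      rw [Real.exp_neg]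
      field_simp
    rw [h4]
    have h5 : Real.exp (-bt X z) ≤ Real.exp (1 / 2) := Real.exp_le_exp.2 (by linarith)
    linarith [exp_half_le]
  have h6 : |X * (w (bt X z - 1 / 2) / nm z) / 2| ≤ 1 := by
    rw [abs_of_nonneg (by positivity)]
    have h7 : X * (w (bt X z - 1 / 2) / nm z) / 2 = w (bt X z - 1 / 2) * (X / nm z) / 2 := by ring
    rw [h7]
    have h8 : 0 ≤ X / (nm z : ℝ) := by positivity
    have h9 : w (bt X z - 1 / 2) * (X / nm z) ≤ 1 * 2 := mul_le_mul hw1 h3 h8 (by norm_num)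
    linarith
  exact mul_le_one₀ (hf z) (abs_nonneg _) h6

lemma aw_gam (f : Gi → ℝ) {X : ℝ} (hX : 0 < X) {z : Gi} (hz : z ∈ sset X) (h0 : 0 ≤ bt X z)
    (h1 : bt X z ≤ 1) : f z = gam (bt X z) * aw f X z := by
  obtain ⟨hz0, _, _⟩ := sset_spec hX hz
  have hn := nm_posR hD01 hz0
  have h2 := gden h0 h1
  have h3 : w (bt X z - 1 / 2) = 1 - |bt X z - 1 / 2| := by
    unfold w
    exact max_eq_right (by linarith)
  obtain ⟨p, hp⟩ : ∃ p, p = 1 - |bt X z - 1 / 2| := ⟨_, rfl⟩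
  have h4 : p ≠ 0 := by
    intro h
    linarith
  unfold aw gam
  rw [bg_eq hX, h3, nm_eq_bt hX hz0, ← hp]
  have h5 := Real.exp_pos (bt X z)
  field_simp

/-! ### the frequencies -/

lemma four (f : Gi → ℝ) {X : ℝ} (hX : 0 < X) (k l : ℤ) :
    ‖∑ z ∈ sset X, (aw f X z : ℂ) * (ex (k * ang z) * ex (l * bt X z))‖ =
      X / 2 * ‖G2 f (Real.exp (1 / 2) * X) (k, -l)‖ := by
  have h1 : ∑ z ∈ sset X, (aw f X z : ℂ) * (ex (k * ang z) * ex (l * bt X z)) =
      ((X / 2 : ℝ) : ℂ) * ex (-(l * Real.log X)) * G2 f (Real.exp (1 / 2) * X) (k, -l) := by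
    unfold G2 DP2
    rw [Finset.mul_sum]
    unfold sset
    rw [Finset.sum_filter]
    refine Finset.sum_congr rfl fun z hz => ?_
    rw [mem_ball hD01] at hz
    have hz0 : z ≠ 0 := (one_le_nm hD01).1 hz.1
    have h2 : chi (k, -l) z = ex (k * ang z) * ex (l * Real.log (nm z)) := by
      unfold chi
      rw [ps_eq_exp hD01 hz0]
      unfold ex ch
      congr 2
      push_cast
      ring
    have h3 : ex (l * bt X z) = ex (l * Real.log (nm z)) * ex (-(l * Real.log X)) := by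
      rw [← ex_add]
      unfold bt
      congr 1
      ring
    split_ifs with h4
    · rw [h2, h3]
      unfold aw
      push_cast
      ring
    · push Not at h4
      dsimp only
      rw [h4]
      simp
  rw [h1, norm_mul, norm_mul, norm_ex, mul_one, Complex.norm_real, Real.norm_eq_abs,
    abs_of_pos (by positivity)]

lemma low2 (A : ℤ × ℤ → ℝ) (hA : ∀ κ, 0 ≤ A κ) (M : ℕ) :
    ∑ k ∈ FK (2 * M + 1), ∑ l ∈ FK (2 * M + 1), A (k, -l) ≤ ∑ κ ∈ FB (4 * M ^ 2 + 1), A κ := by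
  classical
  have h1 : ∑ k ∈ FK (2 * M + 1), ∑ l ∈ FK (2 * M + 1), A (k, -l) =
      ∑ κ ∈ (FK (2 * M + 1) ×ˢ FK (2 * M + 1)).image (fun p => (p.1, -p.2)), A κ := by
    rw [Finset.sum_image, Finset.sum_product]
    intro p _ q _ h
    rw [Prod.mk.injEq, neg_inj] at h
    exact Prod.ext h.1 h.2
  rw [h1]
  refine Finset.sum_le_sum_of_subset_of_nonneg ?_ fun κ _ _ => hA κ
  intro κ hκ
  rw [mem_image] at hκ
  obtain ⟨p, hp, rfl⟩ := hκ
  rw [mem_product] at hp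
  unfold FK at hp
  rw [mem_Ioo, mem_Ioo] at hp
  obtain ⟨⟨h2, h3⟩, h4, h5⟩ := hp
  push_cast at h2 h3 h4 h5
  have key : ∀ x : ℤ, -(2 * (M : ℤ) + 1) < x → x < 2 * (M : ℤ) + 1 → x ^ 2 ≤ 4 * (M : ℤ) ^ 2 := by
    intro x h6 h7
    nlinarith
  have k1 := key p.1 h2 h3
  have k2 := key p.2 h4 h5
  have key2 : ∀ x : ℤ, x ^ 2 ≤ 4 * (M : ℤ) ^ 2 → -(4 * (M : ℤ) ^ 2 + 1 + 1) < x ∧
      x < 4 * (M : ℤ) ^ 2 + 1 + 1 := by
    intro x hx
    constructor <;> nlinarith [sq_nonneg (x - 1), sq_nonneg (x + 1)]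
  unfold FB FK nrm
  rw [mem_filter, mem_product, mem_Ioo, mem_Ioo]
  push_cast
  have k3 := key2 p.1 k1
  have k4 := key2 (-p.2) (by rw [neg_sq]; exact k2)
  refine ⟨⟨k3, k4⟩, ?_⟩
  rw [neg_sq]
  apply max_lt <;> linarith

lemma FB_mono {K K' : ℕ} (h : K ≤ K') : FB K ⊆ FB K' := by
  classical
  intro κ hκ
  have hc : (K : ℤ) ≤ K' := by exact_mod_cast h
  unfold FB FK at hκ ⊢
  rw [mem_filter, mem_product, mem_Ioo, mem_Ioo] at hκ ⊢
  push_cast at hκ ⊢
  obtain ⟨⟨⟨h1, h2⟩, h3, h4⟩, h5⟩ := hκ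
  exact ⟨⟨⟨by linarith, by linarith⟩, by linarith, by linarith⟩, by linarith⟩

end Pool.Agent.N814.MS
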